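import Pool.Agent.TH27.AE.Main

/-!
The final step: representations and transitive actions (MP_75608d_al).
-/

set_option autoImplicit false

namespace TH27.AE
open RC14 Equiv Finset Filter
open scoped InnerProductSpace

noncomputable section

/-- all representations of dimension at most `D` without invariant vectors have energy at least
`κ ‖v‖²` -/
def RepEn (n : ℕ) {k : ℕ} (x : Fin k → Alt n) (D κ : ℝ) : Prop :=
  ∀ (W : Type) [NormedAddCommGroup W] [InnerProductSpace ℂ W] [FiniteDimensional ℂ W]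
    (ρ : Alt n →* (W ≃ₗᵢ[ℂ] W)), (Module.finrank ℂ W : ℝ) ≤ D →
    (∀ v : W, (∀ g, ρ g v = v) → v = 0) → ∀ v : W, κ * ‖v‖ ^ 2 ≤ En ρ x v

/-- **energy form of the result** -/
theorem repEnergy : ∃ C : ℝ, 1 ≤ C ∧ ∀ δ : ℝ, 0 < δ → δ ≤ 1 / 2 → ∀ᶠ n : ℕ in atTop,
    ∀ k : ℕ, C * Real.log (1 / δ) ^ 2 ≤ k →
      (Nat.card {x : Fin k → Alt n //
          ¬ RepEn n x (Real.exp ((n : ℝ) ^ (1 - δ))) (2 * k * δ ^ C)} : ℝ) ≤
        C * Real.log (1 / δ) / n * (Fintype.card (Alt n) : ℝ) ^ k := by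
  obtain ⟨C0, hC0, hlev⟩ := levelsAll
  refine ⟨4 * C0, by linarith, ?_⟩
  intro δ hδ hδ2
  set y : ℝ := Real.log (1 / δ) with hy
  have hl2 := Real.log_two_lt_d9
  have hy0 : Real.log 2 ≤ y := by
    rw [hy]
    apply Real.log_le_log (by norm_num)
    rw [le_div_iff₀ hδ]; linarith
  have hy1 : 1 / 2 ≤ y := by linarith [Real.log_two_gt_d9]
  have hy2 : Real.log (1 / (δ / 2)) ≤ 2 * y := by
    have : (1 : ℝ) / (δ / 2) = 2 * (1 / δ) := by field_simp
    rw [this, Real.log_mul (by norm_num) (by positivity), ← hy]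
    linarith
  have hy3 : 0 ≤ Real.log (1 / (δ / 2)) := by
    apply Real.log_nonneg
    rw [le_div_iff₀ (by positivity)]; linarith
  have hbig : ∀ᶠ n : ℕ in atTop, 4 ≤ (n : ℝ) ^ (δ / 2) :=
    ((tendsto_rpow_atTop (show 0 < δ / 2 by positivity)).comp
      tendsto_natCast_atTop_atTop).eventually_ge_atTop 4
  filter_upwards [hlev (δ / 2) (by positivity) (by linarith), hbig, eventually_ge_atTop 1]
    with n hn hn2 hn1
  intro k hk
  have hnR : (1 : ℝ) ≤ n := by exact_mod_cast hn1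
  have hn0 : (0 : ℝ) < n := by linarith
  obtain ⟨r, hr, h2r, hbad⟩ := hn k (by
    refine le_trans ?_ hk
    have h1 : Real.log (1 / (δ / 2)) ^ 2 ≤ (2 * y) ^ 2 := pow_le_pow_left₀ hy3 hy2 2
    calc C0 * Real.log (1 / (δ / 2)) ^ 2 ≤ C0 * (2 * y) ^ 2 :=
          mul_le_mul_of_nonneg_left h1 (by linarith)
      _ = 4 * C0 * y ^ 2 := by ring)
  have hr4 : 4 ≤ r := by
    have h1 : (n : ℝ) ^ (δ / 2) ≤ (n : ℝ) ^ (1 - δ / 2) :=
      Real.rpow_le_rpow_of_exponent_le hnR (by linarith)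
    have : (4 : ℝ) ≤ r := hn2.trans (h1.trans hr)
    exact_mod_cast this
  -- good permutations
  have hgood : ∀ x : Fin k → Alt n, Good1 n r (k * (δ / 2) ^ C0) x →
      RepEn n x (Real.exp ((n : ℝ) ^ (1 - δ))) (2 * k * δ ^ (4 * C0)) := by
    intro x hx W _ _ _ ρ hdim hinv v
    have hF : ∀ m' ≤ r, ∀ f : V m' n, ∑ a, f a = 0 →
        k * (δ / 2) ^ C0 * ‖f‖ ^ 2 ≤ En (repA m' n) x f := fun m' hm' =>
      FRV n m' k (by omega) x _ fun j h1 h2 => hx j h1 (h2.trans hm')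
    have h1 := gapRep ρ (m := r) (by omega) x _ hF (fun w hw => by
      have h2 : (3 : ℝ) ^ w ≤ Real.exp ((n : ℝ) ^ (1 - δ)) := by
        refine le_trans ?_ hdim
        exact_mod_cast hw
      have h3 : (w : ℝ) * Real.log 3 ≤ (n : ℝ) ^ (1 - δ) := by
        have := Real.log_le_log (by positivity) h2
        rwa [Real.log_pow, Real.log_exp] at this
      have h4 : 1 ≤ Real.log 3 := by
        rw [Real.le_log_iff_exp_le (by norm_num)]
        linarith [Real.exp_one_lt_d9]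
      have h5 : (w : ℝ) ≤ (n : ℝ) ^ (1 - δ) := by
        refine le_trans ?_ h3
        nlinarith [Nat.cast_nonneg (α := ℝ) w]
      have h6 : (4 : ℝ) * w ≤ r := by
        calc (4 : ℝ) * w ≤ (n : ℝ) ^ (δ / 2) * (n : ℝ) ^ (1 - δ) :=
              mul_le_mul hn2 h5 (Nat.cast_nonneg _) (by positivity)
          _ = (n : ℝ) ^ (1 - δ / 2) := by
              rw [← Real.rpow_add hn0]; congr 1; ring
          _ ≤ r := hr
      exact_mod_cast h6) hinv v
    refine le_trans (mul_le_mul_of_nonneg_right ?_ (by positivity)) h1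
    have hk0 : (0 : ℝ) ≤ k := Nat.cast_nonneg _
    have h7 : 2 * δ ^ (4 * C0) ≤ (δ / 2) ^ C0 := by
      have e1 : (δ / 2) ^ C0 = δ ^ C0 * (1 / 2 : ℝ) ^ C0 := by
        rw [← Real.mul_rpow hδ.le (by norm_num)]
        congr 1; ring
      have e2 : δ ^ C0 ≤ (1 / 2 : ℝ) ^ C0 := Real.rpow_le_rpow hδ.le hδ2 (by linarith)
      have e3 : δ ^ C0 ≤ 1 / 2 := by
        calc δ ^ C0 ≤ (1 / 2 : ℝ) ^ C0 := e2
          _ ≤ (1 / 2 : ℝ) ^ (1 : ℝ) :=
              Real.rpow_le_rpow_of_exponent_ge (by norm_num) (by norm_num) hC0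
          _ = 1 / 2 := Real.rpow_one _
      have e4 : δ ^ (4 * C0) = δ ^ C0 * δ ^ C0 * δ ^ C0 * δ ^ C0 := by
        rw [← Real.rpow_add hδ, ← Real.rpow_add hδ, ← Real.rpow_add hδ]
        congr 1; ring
      have hp : 0 < δ ^ C0 := Real.rpow_pos_of_pos hδ _
      have e5 : δ ^ C0 * δ ^ C0 ≤ (1 / 2) * (1 / 2) := mul_le_mul e3 e3 hp.le (by norm_num)
      rw [e4, e1]
      calc 2 * (δ ^ C0 * δ ^ C0 * δ ^ C0 * δ ^ C0)
          = δ ^ C0 * δ ^ C0 * (2 * (δ ^ C0 * δ ^ C0)) := by ring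
        _ ≤ δ ^ C0 * (1 / 2 : ℝ) ^ C0 * 1 := by
            apply mul_le_mul _ (by linarith) (by positivity) (by positivity)
            exact mul_le_mul_of_nonneg_left e2 hp.le
        _ = _ := by ring
    calc 2 * (k : ℝ) * δ ^ (4 * C0) = k * (2 * δ ^ (4 * C0)) := by ring
      _ ≤ k * (δ / 2) ^ C0 := mul_le_mul_of_nonneg_left h7 hk0
  have hle : (Nat.card {x : Fin k → Alt n //
      ¬ RepEn n x (Real.exp ((n : ℝ) ^ (1 - δ))) (2 * k * δ ^ (4 * C0))} : ℝ) ≤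
      Nat.card {x : Fin k → Alt n // ¬ Good1 n r (k * (δ / 2) ^ C0) x} := by
    exact_mod_cast Nat.card_le_card_of_injective
      (fun x : {x : Fin k → Alt n //
        ¬ RepEn n x (Real.exp ((n : ℝ) ^ (1 - δ))) (2 * k * δ ^ (4 * C0))} =>
        (⟨x.1, fun h => x.2 (hgood x.1 h)⟩ :
          {x : Fin k → Alt n // ¬ Good1 n r (k * (δ / 2) ^ C0) x}))
      (fun x z h => Subtype.ext (congrArg (fun w => w.1) h))
  refine (hle.trans hbad).trans (mul_le_mul_of_nonneg_right ?_ (by positivity))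
  apply div_le_div_of_nonneg_right _ hn0.le
  calc C0 * Real.log (1 / (δ / 2)) ≤ C0 * (2 * y) := mul_le_mul_of_nonneg_left hy2 (by linarith)
    _ ≤ 4 * C0 * y := by nlinarith

/-- from the energy to the averaging operator -/
lemma avg_of_en {G : Type*} [Group G] {W : Type*} [NormedAddCommGroup W] [InnerProductSpace ℂ W]
    (ρ : G →* (W ≃ₗᵢ[ℂ] W)) {k : ℕ} (hk : 1 ≤ k) (x : Fin k → G) (v : W) :
    (⟪(1 / (2 * k) : ℂ) • ∑ i, (ρ (x i) v + ρ (x i)⁻¹ v), v⟫_ℂ).re =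
      ‖v‖ ^ 2 - En ρ x v / (2 * k) := by
  have hk0 : (k : ℝ) ≠ 0 := by positivity
  have h1 : ∑ i, (ρ (x i) v + ρ (x i)⁻¹ v) = ((2 * k : ℝ) : ℂ) • v - Lap ρ x v := by
    rw [Lap_apply, ← sub_eq_zero, sub_sub_eq_add_sub, sub_eq_zero, ← Finset.sum_add_distrib]
    have : ∀ i : Fin k, ρ (x i) v + ρ (x i)⁻¹ v + ((2 : ℂ) • v - ρ (x i) v - ρ (x i)⁻¹ v) =
        (2 : ℂ) • v := fun i => by abel
    rw [Finset.sum_congr rfl fun i _ => this i, Finset.sum_const, card_univ, Fintype.card_fin]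
    rw [← Nat.cast_smul_eq_nsmul ℂ, smul_smul]
    congr 1
    push_cast
    ring
  have h3 : (⟪v, v⟫_ℂ).re = ‖v‖ ^ 2 := by
    rw [inner_self_eq_norm_sq_to_K]; norm_cast
  have h2 : (1 / (2 * k) : ℂ) = ((1 / (2 * k) : ℝ) : ℂ) := by push_cast; rfl
  rw [h1, inner_smul_left, h2, Complex.conj_ofReal, Complex.re_ofReal_mul, inner_sub_left,
    inner_smul_left, Complex.conj_ofReal, Complex.sub_re, Complex.re_ofReal_mul, h3, Lap_inner]
  field_simp

/-! ### transitive actions -/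

section Act
variable {G : Type*} [Group G] {Ω : Type*} [Fintype Ω] [MulAction G Ω]

/-- the permutation representation -/
def permRep (G : Type*) [Group G] (Ω : Type*) [Fintype Ω] [MulAction G Ω] :
    G →* (EuclideanSpace ℂ Ω ≃ₗᵢ[ℂ] EuclideanSpace ℂ Ω) where
  toFun g := LinearIsometryEquiv.piLpCongrLeft 2 ℂ ℂ (MulAction.toPerm g)
  map_one' := by
    ext f a
    simp [LinearIsometryEquiv.piLpCongrLeft_apply, Equiv.piCongrLeft']
  map_mul' g h := by
    ext f a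
    simp [LinearIsometryEquiv.piLpCongrLeft_apply, Equiv.piCongrLeft', mul_smul]

lemma permRep_apply (g : G) (f : EuclideanSpace ℂ Ω) (a : Ω) :
    permRep G Ω g f a = f (g⁻¹ • a) := by
  simp [permRep, LinearIsometryEquiv.piLpCongrLeft_apply, Equiv.piCongrLeft']

/-- functions of sum zero -/
def S0 (Ω : Type*) [Fintype Ω] : Submodule ℂ (EuclideanSpace ℂ Ω) where
  carrier := {f | ∑ a, f a = 0}
  zero_mem' := by simp
  add_mem' := by
    intro f g hf hg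
    simp only [Set.mem_ofPred_eq, PiLp.add_apply, Finset.sum_add_distrib] at *
    rw [hf, hg, add_zero]
  smul_mem' := by
    intro c f hf
    simp only [Set.mem_ofPred_eq, PiLp.smul_apply, smul_eq_mul, ← Finset.mul_sum] at *
    rw [hf, mul_zero]

lemma S0_inv : Inv (permRep G Ω) (S0 Ω) := by
  intro g f hf
  change ∑ a, permRep G Ω g f a = 0
  simp only [permRep_apply]
  exact (Equiv.sum_comp (MulAction.toPerm g⁻¹ : Perm Ω) fun a => f a).trans hf

end Act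

/-- from representations to transitive actions -/
lemma act_of_rep {n k : ℕ} (hk : 1 ≤ k) (x : Fin k → Alt n) (D κ : ℝ) (h : RepEn n x D κ)
    (Ω : Type) [Fintype Ω] [MulAction (Alt n) Ω] [MulAction.IsPretransitive (Alt n) Ω]
    (hD : (Fintype.card Ω : ℝ) ≤ D) (f : Ω → ℝ) (hf : ∑ ω, f ω = 0) :
    ∑ ω, f ω * ((∑ i, (f (x i • ω) + f ((x i)⁻¹ • ω))) / (2 * k)) ≤
      (1 - κ / (2 * k)) * ∑ ω, f ω ^ 2 := by
  have hk0 : (0 : ℝ) < k := by exact_mod_cast hk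
  set F : EuclideanSpace ℂ Ω := WithLp.toLp 2 fun ω => (f ω : ℂ) with hF
  have hFa : ∀ ω, F ω = (f ω : ℂ) := fun _ => rfl
  have hFS : F ∈ S0 Ω := by
    change ∑ a, F a = 0
    simp only [hFa]
    rw [← Complex.ofReal_sum, hf, Complex.ofReal_zero]
  have h1 := h (S0 Ω) (res (permRep (Alt n) Ω) (S0 Ω) S0_inv) (by
    refine le_trans ?_ hD
    have h2 := Submodule.finrank_le (S0 Ω)
    rw [finrank_euclideanSpace] at h2
    exact_mod_cast h2) (by
    intro v hv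
    apply Subtype.ext
    ext ω
    have hc : ∀ ω' : Ω, (v : EuclideanSpace ℂ Ω) ω' = (v : EuclideanSpace ℂ Ω) ω := by
      intro ω'
      obtain ⟨g, hg⟩ := MulAction.exists_smul_eq (Alt n) ω ω'
      have h2 := congrArg (fun w : S0 Ω => (w : EuclideanSpace ℂ Ω) ω') (hv g)
      simp only [res_apply, permRep_apply] at h2
      rw [← h2, ← hg, inv_smul_smul]
    have h3 : ∑ a, (v : EuclideanSpace ℂ Ω) a = 0 := v.2
    rw [Finset.sum_congr rfl fun a _ => hc a, Finset.sum_const, card_univ, nsmul_eq_mul] at h3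
    have h4 : (Fintype.card Ω : ℂ) ≠ 0 := by
      have : Nonempty Ω := ⟨ω⟩
      exact_mod_cast Fintype.card_ne_zero
    exact (mul_eq_zero.mp h3).resolve_left h4) ⟨F, hFS⟩
  -- the norm and the energy
  have hnorm : ‖(⟨F, hFS⟩ : S0 Ω)‖ ^ 2 = ∑ ω, f ω ^ 2 := by
    rw [Submodule.coe_norm, EuclideanSpace.norm_sq_eq]
    refine Finset.sum_congr rfl fun ω _ => ?_
    rw [hFa, Complex.norm_real, Real.norm_eq_abs, sq_abs]
  have hen : En (res (permRep (Alt n) Ω) (S0 Ω) S0_inv) x (⟨F, hFS⟩ : S0 Ω) =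
      ∑ i, ∑ ω, (f ((x i)⁻¹ • ω) - f ω) ^ 2 := by
    unfold En
    refine Finset.sum_congr rfl fun i _ => ?_
    rw [Submodule.coe_norm, Submodule.coe_sub, res_apply, EuclideanSpace.norm_sq_eq]
    refine Finset.sum_congr rfl fun ω _ => ?_
    rw [PiLp.sub_apply, permRep_apply, hFa, hFa, ← Complex.ofReal_sub, Complex.norm_real,
      Real.norm_eq_abs, sq_abs]
  rw [hnorm, hen] at h1
  have h2 : ∀ i, ∑ ω, (f ((x i)⁻¹ • ω) - f ω) ^ 2 =
      2 * ∑ ω, f ω ^ 2 - ∑ ω, f ω * (f (x i • ω) + f ((x i)⁻¹ • ω)) := by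
    intro i
    have e1 : ∑ ω, f ((x i)⁻¹ • ω) ^ 2 = ∑ ω, f ω ^ 2 :=
      Equiv.sum_comp (MulAction.toPerm (x i)⁻¹ : Perm Ω) fun ω => f ω ^ 2
    have e2 : ∑ ω, f ω * f ((x i)⁻¹ • ω) = ∑ ω, f (x i • ω) * f ω := by
      rw [← Equiv.sum_comp (MulAction.toPerm (x i) : Perm Ω)]
      refine Finset.sum_congr rfl fun ω _ => ?_
      rw [MulAction.toPerm_apply, inv_smul_smul]
    have e3 : ∀ ω, (f ((x i)⁻¹ • ω) - f ω) ^ 2 = f ((x i)⁻¹ • ω) ^ 2 + f ω ^ 2 -
        2 * (f ω * f ((x i)⁻¹ • ω)) := fun ω => by ring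
    simp only [e3, Finset.sum_add_distrib, Finset.sum_sub_distrib, ← Finset.mul_sum, e1, mul_add]
    have e4 : ∑ ω, f ω * f (x i • ω) = ∑ ω, f (x i • ω) * f ω :=
      Finset.sum_congr rfl fun ω _ => mul_comm _ _
    rw [e4, ← e2]
    ring
  rw [Finset.sum_congr rfl fun i _ => h2 i, Finset.sum_sub_distrib, Finset.sum_const, card_univ,
    Fintype.card_fin, nsmul_eq_mul] at h1
  have h3 : ∑ ω, f ω * ((∑ i, (f (x i • ω) + f ((x i)⁻¹ • ω))) / (2 * k)) =
      (∑ i, ∑ ω, f ω * (f (x i • ω) + f ((x i)⁻¹ • ω))) / (2 * k) := by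
    rw [Finset.sum_comm, Finset.sum_div]
    refine Finset.sum_congr rfl fun ω _ => ?_
    rw [← Finset.mul_sum, mul_div_assoc]
  rw [h3, div_le_iff₀ (by positivity)]
  have h4 : (1 - κ / (2 * k)) * (∑ ω, f ω ^ 2) * (2 * k) =
      2 * k * ∑ ω, f ω ^ 2 - κ * ∑ ω, f ω ^ 2 := by
    field_simp
  rw [h4]
  linarith

end

end TH27.AE
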