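import Pool.Agent.TH27.AE.Rep
import Pool.Agent.H506R2.RC.TRANS

/-!
From spectral gaps for the actions on tuples to a spectral gap for all representations of small
dimension without invariant vectors (MP_75608d_al).
-/

set_option autoImplicit false

namespace TH27.AE
open RC14 Equiv Finset
open scoped InnerProductSpace

noncomputable section

section Lap
variable {G : Type*} [Group G] {k : ℕ}
variable {V : Type*} [NormedAddCommGroup V] [InnerProductSpace ℂ V]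

/-- `∑_i (2 - ρ(x_i) - ρ(x_i)⁻¹)` -/
def Lap (ρ : G →* (V ≃ₗᵢ[ℂ] V)) (x : Fin k → G) : Module.End ℂ V :=
  ∑ i, ((2 : ℂ) • 1 - op ρ (x i) - op ρ (x i)⁻¹)

lemma Lap_apply (ρ : G →* (V ≃ₗᵢ[ℂ] V)) (x : Fin k → G) (v : V) :
    Lap ρ x v = ∑ i, ((2 : ℂ) • v - ρ (x i) v - ρ (x i)⁻¹ v) := by
  simp only [Lap, LinearMap.sum_apply, LinearMap.sub_apply, LinearMap.smul_apply,
    Module.End.one_apply, op_apply]

lemma rho_inv_inner (ρ : G →* (V ≃ₗᵢ[ℂ] V)) (g : G) (u v : V) :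
    ⟪ρ g⁻¹ u, v⟫_ℂ = ⟪u, ρ g v⟫_ℂ := by
  rw [← (ρ g).inner_map_map (ρ g⁻¹ u) v]
  congr 1
  have : ρ g (ρ g⁻¹ u) = (ρ g * ρ g⁻¹) u := rfl
  rw [this, ← map_mul, mul_inv_cancel, map_one]
  rfl

lemma rho_inner_inv (ρ : G →* (V ≃ₗᵢ[ℂ] V)) (g : G) (u v : V) :
    ⟪ρ g u, v⟫_ℂ = ⟪u, ρ g⁻¹ v⟫_ℂ := by
  rw [← rho_inv_inner, inv_inv]

lemma Lap_symm (ρ : G →* (V ≃ₗᵢ[ℂ] V)) (x : Fin k → G) : (Lap ρ x).IsSymmetric := by
  intro u v
  rw [Lap_apply, Lap_apply, sum_inner, inner_sum]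
  refine Finset.sum_congr rfl fun i _ => ?_
  rw [inner_sub_left, inner_sub_left, inner_sub_right, inner_sub_right, inner_smul_left,
    inner_smul_right, rho_inv_inner, rho_inner_inv]
  simp only [Complex.conj_ofNat]
  ring

lemma Lap_inner (ρ : G →* (V ≃ₗᵢ[ℂ] V)) (x : Fin k → G) (v : V) :
    (⟪Lap ρ x v, v⟫_ℂ).re = En ρ x v := by
  rw [Lap_apply, sum_inner, Complex.re_sum]
  unfold En
  refine Finset.sum_congr rfl fun i _ => ?_
  rw [inner_sub_left, inner_sub_left, inner_smul_left, rho_inv_inner]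
  have h1 : ‖ρ (x i) v - v‖ ^ 2 = ‖ρ (x i) v‖ ^ 2 - 2 * (⟪ρ (x i) v, v⟫_ℂ).re + ‖v‖ ^ 2 :=
    norm_sub_sq (𝕜 := ℂ) (ρ (x i) v) v
  rw [h1, LinearIsometryEquiv.norm_map]
  have h2 : (⟪v, ρ (x i) v⟫_ℂ).re = (⟪ρ (x i) v, v⟫_ℂ).re := by
    rw [← inner_conj_symm v, Complex.conj_re]
  have h3 : (⟪v, v⟫_ℂ).re = ‖v‖ ^ 2 := by
    rw [inner_self_eq_norm_sq_to_K]; norm_cast
  simp only [Complex.conj_ofNat, Complex.sub_re, Complex.mul_re, Complex.re_ofNat,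
    Complex.im_ofNat, zero_mul, sub_zero, h2, h3]
  ring

/-- the energy in an eigenbasis -/
lemma gap_of_eig [FiniteDimensional ℂ V] (ρ : G →* (V ≃ₗᵢ[ℂ] V)) (x : Fin k → G) (c : ℝ)
    (h : ∀ (u : V) (μ : ℝ), u ≠ 0 → Lap ρ x u = (μ : ℂ) • u → c ≤ μ) (v : V) :
    c * ‖v‖ ^ 2 ≤ En ρ x v := by
  set b := (Lap_symm ρ x).eigenvectorBasis rfl with hb
  set μ := (Lap_symm ρ x).eigenvalues rfl with hμ
  have h1 : ∀ i, Lap ρ x (b i) = (μ i : ℂ) • b i :=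
    fun i => (Lap_symm ρ x).apply_eigenvectorBasis rfl i
  have h2 : ∀ i, c ≤ μ i := fun i => h (b i) (μ i) (b.orthonormal.ne_zero i) (h1 i)
  have h3 : ⟪Lap ρ x v, v⟫_ℂ = ∑ i, ((μ i * ‖⟪b i, v⟫_ℂ‖ ^ 2 : ℝ) : ℂ) := by
    rw [← b.sum_inner_mul_inner]
    refine Finset.sum_congr rfl fun i _ => ?_
    rw [Lap_symm ρ x v (b i), h1 i, inner_smul_right]
    have : ⟪v, b i⟫_ℂ * ⟪b i, v⟫_ℂ = ((‖⟪b i, v⟫_ℂ‖ ^ 2 : ℝ) : ℂ) := by
      rw [← inner_conj_symm v (b i), mul_comm, Complex.mul_conj, Complex.normSq_eq_norm_sq]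
    rw [mul_assoc, this]
    push_cast
    ring
  rw [← Lap_inner, h3, ← Complex.ofReal_sum, Complex.ofReal_re, ← b.sum_sq_norm_inner_right v,
    Finset.mul_sum]
  exact Finset.sum_le_sum fun i _ => mul_le_mul_of_nonneg_right (h2 i) (by positivity)

end Lap

section Map
variable {n m k : ℕ}
variable {W : Type*} [NormedAddCommGroup W] [InnerProductSpace ℂ W]
variable (ρ : Alt n →* (W ≃ₗᵢ[ℂ] W))

/-- an element which moves `κ` to `a` -/
def ga (hm : m + 2 ≤ n) (κ a : Tup m n) : Alt n := Classical.choose (TRANS hm κ a)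

lemma ga_spec (hm : m + 2 ≤ n) (κ a : Tup m n) : mv (ga hm κ a : Perm (Fin n)) κ = a :=
  Classical.choose_spec (TRANS hm κ a)

/-- vectors fixed by the pointwise stabiliser of `κ` -/
def StFix (κ : Tup m n) (u : W) : Prop :=
  ∀ g : Alt n, (∀ i, (g : Perm (Fin n)) (κ i) = κ i) → ρ g u = u

variable {ρ}

lemma StFix.eq {κ : Tup m n} {u : W} (h : StFix ρ κ u) {g g' : Alt n}
    (e : mv (g : Perm (Fin n)) κ = mv (g' : Perm (Fin n)) κ) : ρ g u = ρ g' u := by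
  have h1 : ρ (g'⁻¹ * g) u = u := by
    apply h
    intro i
    have h2 : (g : Perm (Fin n)) (κ i) = (g' : Perm (Fin n)) (κ i) :=
      congrArg (fun a : Tup m n => a i) e
    rw [Subgroup.coe_mul, Perm.mul_apply, h2, Subgroup.coe_inv, ia]
  have h3 : g = g' * (g'⁻¹ * g) := by group
  rw [h3, rho_mul, h1]

/-- matrix coefficients -/
def Phi (ρ : Alt n →* (W ≃ₗᵢ[ℂ] W)) (hm : m + 2 ≤ n) (κ : Tup m n) (u : W) : W →ₗ[ℂ] V m n where
  toFun v := WithLp.toLp 2 fun a => ⟪ρ (ga hm κ a) u, v⟫_ℂ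
  map_add' v w := by
    ext a
    simp
  map_smul' c v := by
    ext a
    simp

lemma Phi_apply (hm : m + 2 ≤ n) (κ : Tup m n) (u v : W) (a : Tup m n) :
    Phi ρ hm κ u v a = ⟪ρ (ga hm κ a) u, v⟫_ℂ := rfl

lemma Phi_eq (hm : m + 2 ≤ n) {κ : Tup m n} {u : W} (h : StFix ρ κ u) (v : W) (g : Alt n) :
    Phi ρ hm κ u v (mv (g : Perm (Fin n)) κ) = ⟪ρ g u, v⟫_ℂ := by
  rw [Phi_apply, h.eq (ga_spec hm κ _)]

lemma Phi_equiv (hm : m + 2 ≤ n) {κ : Tup m n} {u : W} (h : StFix ρ κ u) (v : W) (g : Alt n) :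
    Phi ρ hm κ u (ρ g v) = repA m n g (Phi ρ hm κ u v) := by
  ext a
  rw [repA_apply, Phi_apply, ← rho_inv_inner]
  have h1 : mv ((g : Perm (Fin n))⁻¹) a =
      mv ((g⁻¹ * ga hm κ a : Alt n) : Perm (Fin n)) κ := by
    rw [Subgroup.coe_mul, mv_mul, ga_spec, Subgroup.coe_inv]
  rw [h1, Phi_eq hm h, rho_mul]

lemma Phi_Lap (hm : m + 2 ≤ n) {κ : Tup m n} {u : W} (h : StFix ρ κ u) (v : W)
    (x : Fin k → Alt n) :
    Phi ρ hm κ u (Lap ρ x v) = Lap (repA m n) x (Phi ρ hm κ u v) := by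
  rw [Lap_apply, Lap_apply, map_sum]
  refine Finset.sum_congr rfl fun i _ => ?_
  rw [map_sub, map_sub, map_smul, Phi_equiv hm h, Phi_equiv hm h]

lemma Phi_sum (hm : m + 2 ≤ n) {κ : Tup m n} {u : W} (h : StFix ρ κ u)
    (hinv : ∀ v : W, (∀ g, ρ g v = v) → v = 0) (v : W) : ∑ a, Phi ρ hm κ u v a = 0 := by
  simp only [Phi_apply]
  rw [← sum_inner]
  have h0 : ∑ a, ρ (ga hm κ a) u = 0 := by
    apply hinv
    intro g
    rw [map_sum]
    have h1 : ∀ a : Tup m n, ρ g (ρ (ga hm κ a) u) = ρ (ga hm κ (mvE (g : Perm (Fin n)) a)) u := by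
      intro a
      rw [← rho_mul]
      apply h.eq
      rw [ga_spec, Subgroup.coe_mul, mv_mul, ga_spec]
      rfl
    rw [Finset.sum_congr rfl fun a _ => h1 a]
    exact Equiv.sum_comp (mvE (g : Perm (Fin n))) fun a => ρ (ga hm κ a) u
  rw [h0, inner_zero_left]

/-- **From tuples to representations.** -/
theorem gapRep [FiniteDimensional ℂ W] (ρ : Alt n →* (W ≃ₗᵢ[ℂ] W)) (hm : m + 6 ≤ n)
    (x : Fin k → Alt n) (c : ℝ)
    (hF : ∀ m' ≤ m, ∀ f : V m' n, ∑ a, f a = 0 → c * ‖f‖ ^ 2 ≤ En (repA m' n) x f)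
    (hdim : ∀ w : ℕ, 3 ^ w ≤ Module.finrank ℂ W → 4 * w ≤ m)
    (hinv : ∀ v : W, (∀ g, ρ g v = v) → v = 0) (v : W) : c * ‖v‖ ^ 2 ≤ En ρ x v := by
  refine gap_of_eig ρ x c ?_ v
  intro u μ hu hμ
  by_contra hcon
  push Not at hcon
  -- all matrix coefficients with fixed vectors vanish
  have hz : ∀ (m' : ℕ) (hm' : m' ≤ m) (κ : Tup m' n) (u0 : W), StFix ρ κ u0 →
      ∀ g : Alt n, ⟪ρ g u0, u⟫_ℂ = 0 := by
    intro m' hm' κ u0 h0 g
    have hm2 : m' + 2 ≤ n := by omega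
    have h1 := hF m' hm' (Phi ρ hm2 κ u0 u) (Phi_sum hm2 h0 hinv u)
    have h2 : Lap (repA m' n) x (Phi ρ hm2 κ u0 u) = (μ : ℂ) • Phi ρ hm2 κ u0 u := by
      rw [← Phi_Lap hm2 h0, hμ, map_smul]
    rw [← Lap_inner, h2, inner_smul_left, Complex.conj_ofReal, Complex.re_ofReal_mul,
      inner_self_eq_norm_sq_to_K] at h1
    have h3 : ((((‖Phi ρ hm2 κ u0 u‖ : ℝ) : ℂ)) ^ 2).re = ‖Phi ρ hm2 κ u0 u‖ ^ 2 := by
      norm_cast
    have h4 : c * ‖Phi ρ hm2 κ u0 u‖ ^ 2 ≤ μ * ‖Phi ρ hm2 κ u0 u‖ ^ 2 := by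
      exact h1.trans (le_of_eq (congrArg (fun t => μ * t) h3))
    have h5 : ‖Phi ρ hm2 κ u0 u‖ ^ 2 = 0 := by
      have : 0 ≤ ‖Phi ρ hm2 κ u0 u‖ ^ 2 := by positivity
      nlinarith
    have h6 : Phi ρ hm2 κ u0 u = 0 := by
      have := pow_eq_zero_iff (two_ne_zero) |>.mp h5
      exact norm_eq_zero.mp this
    rw [← Phi_eq hm2 h0 u g, h6]
    rfl
  let N : Submodule ℂ W :=
    { carrier := {v | ∀ (m' : ℕ) (_ : m' ≤ m) (κ : Tup m' n) (u0 : W), StFix ρ κ u0 →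
        ∀ g : Alt n, ⟪ρ g u0, v⟫_ℂ = 0}
      zero_mem' := by intro _ _ _ _ _ _; exact inner_zero_right _
      add_mem' := by
        intro a b ha hb m' hm' κ u0 h0 g
        rw [inner_add_right, ha m' hm' κ u0 h0 g, hb m' hm' κ u0 h0 g, add_zero]
      smul_mem' := by
        intro c a ha m' hm' κ u0 h0 g
        rw [inner_smul_right, ha m' hm' κ u0 h0 g, mul_zero] }
  have hN : Inv ρ N := by
    intro h v hv m' hm' κ u0 h0 g
    rw [← rho_inv_inner, ← rho_mul]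
    exact hv m' hm' κ u0 h0 _
  have huN : u ∈ N := hz
  have : Nontrivial N := ⟨⟨⟨u, huN⟩, 0, fun h => hu (congrArg Subtype.val h)⟩⟩
  obtain ⟨w, hw, hS⟩ := fixedVec (res ρ N hN)
  have hw4 : 4 * w ≤ m := hdim w (hw.trans (Submodule.finrank_le _))
  obtain ⟨S, hSc, v0, hv0, hfix⟩ := hS (by omega)
  let κ : Tup S.card n := (S.orderEmbOfFin rfl).toEmbedding
  have hκ : StFix ρ κ (v0 : W) := by
    intro g hg
    have h1 := hfix g (fun p hp => by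
      have : p ∈ Set.range (S.orderEmbOfFin rfl) := by
        rw [Finset.range_orderEmbOfFin]; exact hp
      obtain ⟨i, rfl⟩ := this
      exact hg i)
    have h2 := congrArg Subtype.val h1
    rwa [res_apply] at h2
  have h1 := v0.2 S.card (hSc.trans hw4) κ v0 hκ 1
  rw [map_one] at h1
  have h2 : ⟪(v0 : W), (v0 : W)⟫_ℂ = 0 := h1
  rw [inner_self_eq_zero] at h2
  exact hv0 (Subtype.ext h2)

end Map

end

end TH27.AE
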