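import Pool.Agent.H575R2.LL.ITERH
import Pool.Agent.H14R2.RC.S.BLOCKS

/-!
The levels `≤ n ^ (1 - δ)` with `O (log² (1 / δ))` random permutations (MP_75608d_al).
The rounds are those of `Pool.Agent.H14R2.LL.S.ROUNDH`.
-/

set_option autoImplicit false

namespace TH27.AE
open RC14 RC852 TE852 LL14 Finset Equiv Filter

/-- the state after `i` rounds -/
def St (δ : ℝ) (a0 R n : ℕ) (B c0 lam : ℝ) (i : ℕ) : Prop :=
  ∃ (a r : ℕ) (c : ℝ), 1 ≤ a ∧ a ≤ a0 + i * (1 + R * 2) ∧ (Real.log n) ^ 2 ≤ r ∧ 1 ≤ r ∧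
    2 * r + 2 ≤ n ∧ c0 / lam ^ i ≤ c ∧ 0 < c ∧ c ≤ 1 ∧
    (Nat.card {x : Fin a → Alt n // ¬ Good1 n r c x} : ℝ) ≤
      ((B + 2 * i) / n) * (Fintype.card (Alt n) : ℝ) ^ a ∧
    (Real.log (n / r) ≤ δ * Real.log n ∨ Real.log (n / r) ≤ (63 / 64) ^ i * Real.log n)

theorem step {K : ℕ} (hK : K = 256) {G0 : ℕ} {lam : ℝ} (hlam : 1 ≤ lam) (hG0 : 3 ≤ G0)
    (hround : ∀ G : ℕ, G0 ≤ G → ∀ n r R : ℕ,
      (Real.log n) ^ 2 ≤ r → r * G ^ K ≤ n → 33 * Real.log n ≤ 2 ^ R * Real.log G → R ≤ n →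
      ∀ a : ℕ, 1 ≤ a → ∀ c : ℝ, 0 < c → c ≤ 1 → ∀ p : ℝ, 0 ≤ p →
      (Nat.card {x : Fin a → Alt n // ¬ Good1 n r c x} : ℝ) ≤
        p * (Fintype.card (Alt n) : ℝ) ^ a →
      (Nat.card {y : Fin (a + (1 + R * 2)) → Alt n // ¬ Good1 n (r * G ^ 8) (c / lam) y} : ℝ) ≤
        (p + 2 / (n : ℝ)) * (Fintype.card (Alt n) : ℝ) ^ (a + (1 + R * 2)))
    {δ : ℝ} {a0 R n : ℕ} {B c0 : ℝ} (hB : 0 ≤ B) (hc0 : 0 < c0)
    (hD : 256 * Real.log G0 ≤ δ * Real.log n)
    (hR : 33 * 512 ≤ 2 ^ R * δ) (hRn : R ≤ n) (i : ℕ)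
    (h : St δ a0 R n B c0 lam i) : St δ a0 R n B c0 lam (i + 1) := by
  obtain ⟨a, r, c, ha1, ha, hlr, hr1, hrn, hc, hc0', hc1, hcard, hor⟩ := h
  have hn0 : (0 : ℝ) < n := by
    have : 0 < n := by omega
    exact_mod_cast this
  have hlam0 : (0 : ℝ) < lam := by linarith
  by_cases hcase : Real.log (n / r) ≤ δ * Real.log n
  · refine ⟨a, r, c, ha1, ?_, hlr, hr1, hrn, ?_, hc0', hc1, ?_, Or.inl hcase⟩
    · have : i * (1 + R * 2) ≤ (i + 1) * (1 + R * 2) := Nat.mul_le_mul_right _ (by omega)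
      omega
    · refine le_trans ?_ hc
      exact div_le_div_of_nonneg_left hc0.le (by positivity)
        (pow_le_pow_right₀ hlam (by omega))
    · refine hcard.trans (mul_le_mul_of_nonneg_right ?_ (by positivity))
      apply div_le_div_of_nonneg_right _ hn0.le
      push_cast
      linarith
  · have hlogn : Real.log (n / r) ≤ (63 / 64) ^ i * Real.log n := hor.resolve_left hcase
    have hlt : δ * Real.log n < Real.log (n / r) := not_le.mp hcase
    have hrR : (1 : ℝ) ≤ r := by exact_mod_cast hr1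
    have hrp : (0 : ℝ) < r := by linarith
    have hG0R : (3 : ℝ) ≤ G0 := by exact_mod_cast hG0
    have hG0p : (0 : ℝ) < G0 := by linarith
    obtain ⟨G, hG, hG1, hG2⟩ := ITERHx.exG K (by omega) G0 n r (by omega) hr1 (by
      have h1 : Real.log ((G0 : ℝ) ^ K) ≤ Real.log (n / r) := by
        rw [Real.log_pow, hK]
        push_cast
        linarith
      have h2 : (G0 : ℝ) ^ K ≤ n / r := (Real.log_le_log_iff (by positivity) (by positivity)).mp h1
      rw [le_div_iff₀ hrp] at h2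
      have h3 : ((r * G0 ^ K : ℕ) : ℝ) ≤ n := by
        push_cast
        linarith
      exact_mod_cast h3)
    have hG3 : 3 ≤ G := hG0.trans hG
    have hGR : (3 : ℝ) ≤ G := by exact_mod_cast hG3
    have hGp : (0 : ℝ) < G := by linarith
    have hG8 : 1 ≤ G ^ 8 := Nat.one_le_pow _ _ (by omega)
    have h1 : (n : ℝ) / r ≤ ((G : ℝ) + 1) ^ K := by
      rw [div_le_iff₀ hrp]
      have : (n : ℝ) ≤ r * ((G : ℝ) + 1) ^ K := by exact_mod_cast hG2.le
      linarith
    have h2 : Real.log (n / r) ≤ 256 * Real.log ((G : ℝ) + 1) := by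
      have := Real.log_le_log (by positivity) h1
      rw [Real.log_pow] at this
      have hKR : (K : ℝ) = 256 := by rw [hK]; norm_num
      rw [hKR] at this
      exact this
    have h3 : Real.log ((G : ℝ) + 1) ≤ 2 * Real.log G := by
      have h4 : (G : ℝ) + 1 ≤ (G : ℝ) ^ 2 := by nlinarith
      have := Real.log_le_log (by positivity) h4
      rw [Real.log_pow] at this
      exact_mod_cast this
    have hlG : δ * Real.log n ≤ 512 * Real.log G := by linarith
    have h33 : 33 * Real.log n ≤ 2 ^ R * Real.log G := by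
      have hln : 0 ≤ Real.log n := Real.log_nonneg (by
        have : (2 : ℝ) * r + 2 ≤ n := by exact_mod_cast hrn
        linarith)
      have e1 : (33 * 512) * Real.log n ≤ 2 ^ R * δ * Real.log n :=
        mul_le_mul_of_nonneg_right hR hln
      have e2 : (2 : ℝ) ^ R * (δ * Real.log n) ≤ 2 ^ R * (512 * Real.log G) :=
        mul_le_mul_of_nonneg_left hlG (by positivity)
      nlinarith
    have hmain := hround G hG n r R hlr hG1 h33 hRn a ha1 c hc0' hc1 ((B + 2 * i) / n)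
      (by positivity) hcard
    refine ⟨a + (1 + R * 2), r * G ^ 8, c / lam, by omega, ?_, ?_, ?_, ?_, ?_, by positivity, ?_,
      ?_, Or.inr ?_⟩
    · have : (i + 1) * (1 + R * 2) = i * (1 + R * 2) + (1 + R * 2) := by ring
      omega
    · refine hlr.trans ?_
      have : r ≤ r * G ^ 8 := Nat.le_mul_of_pos_right _ hG8
      exact_mod_cast this
    · exact Nat.mul_pos hr1 hG8
    · obtain ⟨K', hK'⟩ : ∃ K', K' = 248 := ⟨_, rfl⟩
      have e : r * G ^ K = r * G ^ 8 * G ^ K' := by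
        rw [mul_assoc, ← pow_add, hK', hK]
      have h1 : 4 ≤ G ^ K' := by
        calc 4 ≤ G ^ 2 := by nlinarith
          _ ≤ G ^ K' := Nat.pow_le_pow_right (by omega) (by omega)
      have h2 : r * G ^ 8 * 4 ≤ r * G ^ 8 * G ^ K' := Nat.mul_le_mul_left _ h1
      have h3 : 1 ≤ r * G ^ 8 := Nat.mul_pos hr1 hG8
      rw [e] at hG1
      omega
    · rw [pow_succ, ← div_div]
      exact div_le_div_of_nonneg_right hc hlam0.le
    · exact (div_le_self hc0'.le hlam).trans hc1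
    · refine hmain.trans (le_of_eq ?_)
      congr 1
      push_cast
      ring
    · have h5 : Real.log ((n : ℝ) / ((r * G ^ 8 : ℕ) : ℝ)) = Real.log (n / r) - 8 * Real.log G := by
        push_cast
        rw [← div_div, Real.log_div (by positivity) (by positivity), Real.log_pow]
        norm_num
      rw [h5, pow_succ]
      nlinarith

theorem iter {K : ℕ} (hK : K = 256) {G0 : ℕ} {lam : ℝ} (hlam : 1 ≤ lam) (hG0 : 3 ≤ G0)
    (hround : ∀ G : ℕ, G0 ≤ G → ∀ n r R : ℕ,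
      (Real.log n) ^ 2 ≤ r → r * G ^ K ≤ n → 33 * Real.log n ≤ 2 ^ R * Real.log G → R ≤ n →
      ∀ a : ℕ, 1 ≤ a → ∀ c : ℝ, 0 < c → c ≤ 1 → ∀ p : ℝ, 0 ≤ p →
      (Nat.card {x : Fin a → Alt n // ¬ Good1 n r c x} : ℝ) ≤
        p * (Fintype.card (Alt n) : ℝ) ^ a →
      (Nat.card {y : Fin (a + (1 + R * 2)) → Alt n // ¬ Good1 n (r * G ^ 8) (c / lam) y} : ℝ) ≤
        (p + 2 / (n : ℝ)) * (Fintype.card (Alt n) : ℝ) ^ (a + (1 + R * 2)))
    {δ : ℝ} {a0 R n : ℕ} {B c0 : ℝ} (hB : 0 ≤ B) (hc0 : 0 < c0)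
    (hD : 256 * Real.log G0 ≤ δ * Real.log n)
    (hR : 33 * 512 ≤ 2 ^ R * δ) (hRn : R ≤ n)
    (h : St δ a0 R n B c0 lam 0) (i : ℕ) : St δ a0 R n B c0 lam i := by
  induction i with
  | zero => exact h
  | succ i ih => exact step hK hlam hG0 hround hB hc0 hD hR hRn i ih

/-- **`O (log² (1 / δ))` random permutations, levels `≤ n ^ (1 - δ)`.** -/
theorem levels : ∃ C : ℝ, 1 ≤ C ∧ ∀ δ : ℝ, 0 < δ → δ ≤ 1 / 2 → ∀ᶠ n : ℕ in atTop,
    ∃ (a r : ℕ) (c : ℝ), 1 ≤ a ∧ (a : ℝ) ≤ C * Real.log (1 / δ) ^ 2 ∧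
      (n : ℝ) ^ (1 - δ) ≤ r ∧ 2 * r + 2 ≤ n ∧ 0 < c ∧ c ≤ 1 ∧ δ ^ C ≤ c ∧
      (Nat.card {x : Fin a → Alt n // ¬ Good1 n r c x} : ℝ) ≤
        C * Real.log (1 / δ) / n * (Fintype.card (Alt n) : ℝ) ^ a := by
  obtain ⟨G0, lam, hlam, hround⟩ := ROUNDH
  obtain ⟨a0, ha0, c0, hc0, B, hB, hev⟩ := TEMAIN' (1 / 2) (by norm_num)
  obtain ⟨G1, hG1⟩ : ∃ G1, G1 = max G0 3 := ⟨_, rfl⟩
  have hG13 : 3 ≤ G1 := by rw [hG1]; exact le_max_right _ _
  have hG10 : G0 ≤ G1 := by rw [hG1]; exact le_max_left _ _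
  obtain ⟨c1, hc1⟩ : ∃ c1, c1 = min c0 1 := ⟨_, rfl⟩
  have hc1p : 0 < c1 := by rw [hc1]; exact lt_min hc0 one_pos
  have hc11 : c1 ≤ 1 := by rw [hc1]; exact min_le_right _ _
  have hlam0 : (0 : ℝ) < lam := by linarith
  have hloglam : 0 ≤ Real.log lam := Real.log_nonneg hlam
  have hlc1 : Real.log c1 ≤ 0 := Real.log_nonpos hc1p.le hc11
  -- the constant
  obtain ⟨C, hC⟩ : ∃ C : ℝ, C = 4 * (a0 : ℝ) + 10000 + 2 * (-Real.log c1) +
      66 * Real.log lam + 2 * B + 132 := ⟨_, rfl⟩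
  have ha0R : (0 : ℝ) ≤ a0 := Nat.cast_nonneg _
  refine ⟨C, by rw [hC]; nlinarith, ?_⟩
  intro δ hδ hδ2
  set y : ℝ := Real.log (1 / δ) with hy
  have hyδ : Real.log δ = -y := by rw [hy, one_div, Real.log_inv, neg_neg]
  have hy1 : 1 / 2 ≤ y := by
    have h1 : Real.log 2 ≤ y := by
      rw [hy]
      apply Real.log_le_log (by norm_num)
      rw [le_div_iff₀ hδ]; linarith
    linarith [Real.log_two_gt_d9]
  -- the number of letters per round
  obtain ⟨R, hR⟩ : ∃ R : ℕ, R = ⌈2 * y + 16⌉₊ := ⟨_, rfl⟩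
  have hR1 : 2 * y + 16 ≤ R := by rw [hR]; exact Nat.le_ceil _
  have hR2 : (R : ℝ) ≤ 2 * y + 17 := by
    have : (R : ℝ) < 2 * y + 16 + 1 := by rw [hR]; exact Nat.ceil_lt_add_one (by linarith)
    linarith
  have h33 : (33 * 512 : ℝ) ≤ 2 ^ R * δ := by
    have h1 : (2 : ℝ) ^ R = Real.exp (R * Real.log 2) := by
      rw [mul_comm, Real.exp_mul, Real.exp_log (by norm_num), Real.rpow_natCast]
    have h2 : (33 * 512 : ℝ) ≤ Real.exp 10 := by
      have h3 : (2.7 : ℝ) ≤ Real.exp 1 := by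
        have := Real.exp_one_gt_d9
        linarith
      have h4 : Real.exp 10 = Real.exp 1 ^ 10 := by rw [← Real.exp_nat_mul]; norm_num
      rw [h4]
      calc (33 * 512 : ℝ) ≤ 2.7 ^ 10 := by norm_num
        _ ≤ Real.exp 1 ^ 10 := pow_le_pow_left₀ (by norm_num) h3 10
    have h5 : δ = Real.exp (-y) := by rw [← hyδ, Real.exp_log hδ]
    rw [h1, h5, ← Real.exp_add]
    refine h2.trans (Real.exp_le_exp.mpr ?_)
    have := Real.log_two_gt_d9
    nlinarith
  -- the number of rounds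
  obtain ⟨N, hN⟩ : ∃ N : ℕ, N = ⌈64 * y⌉₊ := ⟨_, rfl⟩
  have hN1 : 64 * y ≤ N := by rw [hN]; exact Nat.le_ceil _
  have hN2 : (N : ℝ) ≤ 66 * y := by
    have : (N : ℝ) < 64 * y + 1 := by rw [hN]; exact Nat.ceil_lt_add_one (by linarith)
    linarith
  have hround' := fun G (hG : G1 ≤ G) => hround G (hG10.trans hG)
  have hst := ITERHx.start a0 ha0 c0 hc0 B hev 1 lam
  have hlog : Tendsto (fun n : ℕ => Real.log (n : ℝ)) atTop atTop :=
    Real.tendsto_log_atTop.comp tendsto_natCast_atTop_atTop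
  filter_upwards [hst, hlog.eventually_ge_atTop (256 * Real.log G1 / δ),
    eventually_ge_atTop R, eventually_ge_atTop 16] with n hn1 hn2 hn3 hn4
  have hn16 : (16 : ℝ) ≤ n := by exact_mod_cast hn4
  have hn0 : (0 : ℝ) < n := by linarith
  have hlog0 : 0 ≤ Real.log n := Real.log_nonneg (by linarith)
  have hD : 256 * Real.log G1 ≤ δ * Real.log n := by
    rw [div_le_iff₀ hδ] at hn2
    linarith
  have hSt0 : St δ a0 R n B c1 lam 0 := by
    obtain ⟨a, r, c, g1, g2, g3, g4, g5, g6, g7, g8, g9, g10⟩ := hn1 R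
    refine ⟨a, r, c, g1, g2, g3, g4, g5, by rw [hc1]; exact g6, g7, g8, g9, Or.inr ?_⟩
    rcases g10 with g | g
    · rw [pow_zero, one_mul]
      have hrR : (1 : ℝ) ≤ r := by exact_mod_cast g4
      exact Real.log_le_log (by positivity) (div_le_self hn0.le hrR)
    · exact g
  obtain ⟨a, r, c, ha1, ha, -, hr1, hrn, hc, hc0', hcle, hcard, hor⟩ :=
    iter (K := 256) rfl hlam hG13 hround' hB hc1p hD h33 hn3 hSt0 N
  refine ⟨a, r, c, ha1, ?_, ?_, hrn, hc0', hcle, ?_, ?_⟩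
  · have h1 : (a : ℝ) ≤ a0 + N * (1 + R * 2) := by exact_mod_cast ha
    have h2 : (N : ℝ) * (1 + R * 2) ≤ 66 * y * (1 + (2 * y + 17) * 2) := by
      apply mul_le_mul hN2 (by linarith) (by positivity) (by linarith)
    have h3 : 0 ≤ Real.log lam * y ^ 2 := by positivity
    have h4 : 0 ≤ (-Real.log c1) * y ^ 2 := mul_nonneg (by linarith) (by positivity)
    have h5 : 0 ≤ B * y ^ 2 := by positivity
    have h8 : y ≤ 2 * y ^ 2 := by
      have := mul_nonneg (show 0 ≤ y by linarith) (show 0 ≤ 2 * y - 1 by linarith)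
      linarith
    have h6 : 0 ≤ 4 * y ^ 2 - 1 := by linarith
    have h7 : (a0 : ℝ) ≤ 4 * (a0 * y ^ 2) := by
      have := mul_nonneg ha0R h6
      linarith
    have h9 : 66 * y * (1 + (2 * y + 17) * 2) = 2310 * y + 264 * y ^ 2 := by ring
    have h10 : C * y ^ 2 = 4 * (a0 * y ^ 2) + 10000 * y ^ 2 + 2 * ((-Real.log c1) * y ^ 2) +
        66 * (Real.log lam * y ^ 2) + 2 * (B * y ^ 2) + 132 * y ^ 2 := by rw [hC]; ring
    have h11 : 0 ≤ y ^ 2 := by positivity
    rw [h10]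
    linarith
  · have hrp : (0 : ℝ) < r := by exact_mod_cast hr1
    have h1 : Real.log (n / r) ≤ δ * Real.log n := by
      rcases hor with h | h
      · exact h
      · refine h.trans (mul_le_mul_of_nonneg_right ?_ hlog0)
        have g1 : ((63 : ℝ) / 64) ^ N = Real.exp (N * Real.log (63 / 64)) := by
          rw [mul_comm, Real.exp_mul, Real.exp_log (by norm_num), Real.rpow_natCast]
        have g2 : Real.log (63 / 64) ≤ -(1 / 64) := by
          have := Real.log_le_sub_one_of_pos (show (0 : ℝ) < 63 / 64 by norm_num)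
          linarith
        have h5 : δ = Real.exp (-y) := by rw [← hyδ, Real.exp_log hδ]
        rw [g1, h5]
        apply Real.exp_le_exp.mpr
        have g3 : (N : ℝ) * Real.log (63 / 64) ≤ N * (-(1 / 64)) :=
          mul_le_mul_of_nonneg_left g2 (Nat.cast_nonneg _)
        linarith
    rw [Real.log_div hn0.ne' hrp.ne'] at h1
    have h2 : Real.log ((n : ℝ) ^ (1 - δ)) ≤ Real.log r := by
      rw [Real.log_rpow hn0]
      linarith
    exact (Real.log_le_log_iff (Real.rpow_pos_of_pos hn0 _) hrp).mp h2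
  · refine le_trans ?_ hc
    have g1 : lam ^ N = Real.exp (N * Real.log lam) := by
      rw [mul_comm, Real.exp_mul, Real.exp_log hlam0, Real.rpow_natCast]
    have g0 : c1 = Real.exp (Real.log c1) := (Real.exp_log hc1p).symm
    rw [g1]
    nth_rewrite 1 [g0]
    rw [← Real.exp_sub, Real.rpow_def_of_pos hδ, hyδ]
    apply Real.exp_le_exp.mpr
    have g2 : (N : ℝ) * Real.log lam ≤ 66 * y * Real.log lam :=
      mul_le_mul_of_nonneg_right hN2 hloglam
    have g3 : -Real.log c1 ≤ 2 * ((-Real.log c1) * y) := by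
      have := mul_nonneg (show 0 ≤ -Real.log c1 by linarith) (show 0 ≤ 2 * y - 1 by linarith)
      linarith
    have g4 : -y * C = -(4 * (a0 * y) + 10000 * y + 2 * ((-Real.log c1) * y) +
        66 * (Real.log lam * y) + 2 * (B * y) + 132 * y) := by rw [hC]; ring
    have g5 : 0 ≤ (a0 : ℝ) * y := mul_nonneg ha0R (by linarith)
    have g6 : 0 ≤ B * y := mul_nonneg hB (by linarith)
    have g7 : 66 * y * Real.log lam = 66 * (Real.log lam * y) := by ring
    rw [g4]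
    linarith
  · refine hcard.trans (mul_le_mul_of_nonneg_right ?_ (by positivity))
    apply div_le_div_of_nonneg_right _ hn0.le
    have h1 : B ≤ 2 * (B * y) := by
      have := mul_nonneg hB (show 0 ≤ 2 * y - 1 by linarith)
      linarith
    have h2 : 0 ≤ -Real.log c1 * y := mul_nonneg (by linarith) (by linarith)
    have h3 : 0 ≤ Real.log lam * y := mul_nonneg hloglam (by linarith)
    have h4 : 0 ≤ (a0 : ℝ) * y := mul_nonneg ha0R (by linarith)
    have g4 : C * y = 4 * (a0 * y) + 10000 * y + 2 * ((-Real.log c1) * y) +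
        66 * (Real.log lam * y) + 2 * (B * y) + 132 * y := by rw [hC]; ring
    rw [g4]
    linarith

end TH27.AE
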