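import Pool.Agent.TH27.AE.Gap
import Pool.Agent.TH27.AE.Iter
import Pool.Agent.H20R2.RC.FRV

/-!
All Schreier graphs with at most `exp (n ^ (1 - δ))` vertices and all unitary representations of
dimension at most `exp (n ^ (1 - δ))` of the alternating groups, for `O (log² (1 / δ))` random
permutations (MP_75608d_al).
-/

set_option autoImplicit false

namespace TH27.AE
open RC14 Equiv Finset Filter
open scoped InnerProductSpace

/-! ### many permutations: blocks -/

open RC14.BLOCKS in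
/-- at least half of the blocks are good with high probability -/
theorem blocksQ {G : Type*} [Group G] [Fintype G] (k0 k : ℕ) (h0 : 1 ≤ k0) (hk : k0 ≤ k)
    (Q : (Fin k0 → G) → Prop) (Q' : (Fin k → G) → Prop) (p : ℝ)
    (hkey : ∀ (B : ℕ) (hB : B * k0 ≤ k), 1 ≤ B → k ≤ 2 * (B * k0) → ∀ x : Fin k → G,
      ∀ S : Finset (Fin B), (∀ b ∈ S, Q (x ∘ bl B hB b)) → B ≤ 2 * #S → Q' x)
    (hbad : (Nat.card {x : Fin k0 → G // ¬ Q x} : ℝ) ≤ p * (Fintype.card G : ℝ) ^ k0) :
    (Nat.card {x : Fin k → G // ¬ Q' x} : ℝ) ≤ 2 * p * (Fintype.card G : ℝ) ^ k := by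
  classical
  obtain ⟨B, hBdef⟩ : ∃ B, B = k / k0 := ⟨_, rfl⟩
  have hB : B * k0 ≤ k := by rw [hBdef]; exact Nat.div_mul_le_self k k0
  have hB1 : 1 ≤ B := by rw [hBdef]; exact (Nat.one_le_div_iff h0).mpr hk
  have hkB : k ≤ 2 * (B * k0) := by
    have h1 : k < (B + 1) * k0 := by
      rw [hBdef]
      exact (Nat.div_lt_iff_lt_mul (by omega)).mp (Nat.lt_succ_self _)
    have h2 : 1 * k0 ≤ B * k0 := Nat.mul_le_mul_right _ hB1
    nlinarith
  let nb : (Fin k → G) → ℕ := fun x => #{b : Fin B | ¬ Q (x ∘ bl B hB b)}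
  have h1 : ∀ x : Fin k → G, ¬ Q' x → B ≤ 2 * nb x := by
    intro x hx
    by_contra hcon
    push Not at hcon
    apply hx
    refine hkey B hB hB1 hkB x {b : Fin B | Q (x ∘ bl B hB b)} (fun b hb => by simpa using hb) ?_
    have hcard : #{b : Fin B | Q (x ∘ bl B hB b)} + nb x = B := by
      have := Finset.card_filter_add_card_filter_not (s := (univ : Finset (Fin B)))
        (fun b => Q (x ∘ bl B hB b))
      simpa [nb] using this
    omega
  have h2 : (B : ℝ) * (Nat.card {x : Fin k → G // ¬ Q' x} : ℝ) ≤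
      2 * ∑ x : Fin k → G, (nb x : ℝ) := by
    have e1 : Nat.card {x : Fin k → G // ¬ Q' x} = #{x : Fin k → G | ¬ Q' x} := by
      rw [Nat.card_eq_fintype_card, Fintype.card_subtype]
    rw [e1, mul_comm, ← nsmul_eq_mul, Finset.mul_sum]
    refine le_trans (Finset.card_nsmul_le_sum _ (fun x => 2 * (nb x : ℝ)) _ ?_) ?_
    · intro x hx
      rw [Finset.mem_filter] at hx
      exact_mod_cast h1 x hx.2
    · exact Finset.sum_le_sum_of_subset_of_nonneg (Finset.subset_univ _)
        fun i _ _ => by positivity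
  have h3 : ∑ x : Fin k → G, (nb x : ℝ) ≤ B * (p * (Fintype.card G : ℝ) ^ k) := by
    have e1 : ∑ x : Fin k → G, (nb x : ℝ) =
        ∑ b : Fin B, (Nat.card {x : Fin k → G // ¬ Q (x ∘ bl B hB b)} : ℝ) := by
      have e2 : ∀ b : Fin B, (Nat.card {x : Fin k → G // ¬ Q (x ∘ bl B hB b)} : ℝ) =
          ∑ x : Fin k → G, if ¬ Q (x ∘ bl B hB b) then (1 : ℝ) else 0 := by
        intro b
        rw [Nat.card_eq_fintype_card, Fintype.card_subtype, Finset.sum_boole]
      simp only [e2]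
      rw [Finset.sum_comm]
      refine Finset.sum_congr rfl fun x _ => ?_
      rw [Finset.sum_boole]
    rw [e1]
    have e3 : ∀ b : Fin B, (Nat.card {x : Fin k → G // ¬ Q (x ∘ bl B hB b)} : ℝ) ≤
        p * (Fintype.card G : ℝ) ^ k := by
      intro b
      have hinj : Function.Injective (bl B hB b : Fin k0 → Fin k) := by
        intro r r' hr
        have := bl_inj B hB (a₁ := (b, r)) (a₂ := (b, r')) hr
        exact (Prod.ext_iff.mp this).2
      have h4 := card_block_le (G := G) (bl B hB b) hinj (fun y => ¬ Q y)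
      have h5 : (Nat.card {x : Fin k → G // ¬ Q (x ∘ bl B hB b)} : ℝ) ≤
          (Nat.card {y : Fin k0 → G // ¬ Q y} : ℝ) * (Fintype.card G : ℝ) ^ (k - k0) := by
        exact_mod_cast h4
      refine h5.trans ?_
      calc (Nat.card {y : Fin k0 → G // ¬ Q y} : ℝ) * (Fintype.card G : ℝ) ^ (k - k0)
          ≤ p * (Fintype.card G : ℝ) ^ k0 * (Fintype.card G : ℝ) ^ (k - k0) :=
            mul_le_mul_of_nonneg_right hbad (by positivity)
        _ = p * (Fintype.card G : ℝ) ^ k := by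
            rw [mul_assoc, ← pow_add]
            congr 2
            omega
    calc _ ≤ ∑ _b : Fin B, p * (Fintype.card G : ℝ) ^ k := Finset.sum_le_sum fun b _ => e3 b
      _ = _ := by simp
  have hBpos : (0 : ℝ) < B := by exact_mod_cast hB1
  have h4 : (B : ℝ) * (Nat.card {x : Fin k → G // ¬ Q' x} : ℝ) ≤
      B * (2 * p * (Fintype.card G : ℝ) ^ k) := by
    calc _ ≤ _ := h2
      _ ≤ 2 * (B * (p * (Fintype.card G : ℝ) ^ k)) := by linarith
      _ = _ := by ring
  exact le_of_mul_le_mul_left h4 hBpos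

open RC14.BLOCKS in
/-- the energy of the whole family -/
lemma good_blocks {n r k0 k B : ℕ} (h0 : 1 ≤ k0) (hB : B * k0 ≤ k) (hkB : k ≤ 2 * (B * k0))
    {c : ℝ} (hc : 0 < c) (x : Fin k → Alt n) (S : Finset (Fin B))
    (hS : ∀ b ∈ S, Good1 n r c (x ∘ bl B hB b)) (hBS : B ≤ 2 * #S) :
    Good1 n r (k * (c / (4 * k0))) x := by
  intro j h1 h2 v hv
  have hk0 : (0 : ℝ) < k0 := by exact_mod_cast h0
  have hsum : ∑ q ∈ S ×ˢ (univ : Finset (Fin k0)), ‖repA j n (x (bl B hB q.1 q.2)) v - v‖ ^ 2 ≤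
      En (repA j n) x v := by
    have e1 : ∑ q ∈ S ×ˢ (univ : Finset (Fin k0)), ‖repA j n (x (bl B hB q.1 q.2)) v - v‖ ^ 2 =
        ∑ i ∈ (S ×ˢ (univ : Finset (Fin k0))).image (fun q => bl B hB q.1 q.2),
          ‖repA j n (x i) v - v‖ ^ 2 := by
      rw [Finset.sum_image]
      intro a _ a' _ h
      exact bl_inj B hB h
    rw [e1]
    exact Finset.sum_le_sum_of_subset_of_nonneg (Finset.subset_univ _) fun i _ _ => sq_nonneg _
  rw [Finset.sum_product] at hsum
  have hlow : (#S : ℝ) * (c * ‖v‖ ^ 2) ≤ En (repA j n) x v := by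
    refine le_trans ?_ hsum
    rw [← nsmul_eq_mul]
    exact Finset.card_nsmul_le_sum _ _ _ fun b hb => hS b hb j h1 h2 v hv
  refine le_trans ?_ hlow
  have h3 : (k : ℝ) ≤ 4 * k0 * #S := by
    have e1 : (k : ℝ) ≤ 2 * (B * k0) := by exact_mod_cast hkB
    have e2 : (B : ℝ) ≤ 2 * #S := by exact_mod_cast hBS
    nlinarith
  have h4 : (k : ℝ) * (c / (4 * k0)) ≤ #S * c := by
    rw [mul_div_assoc', div_le_iff₀ (by positivity)]
    nlinarith
  calc (k : ℝ) * (c / (4 * k0)) * ‖v‖ ^ 2 ≤ #S * c * ‖v‖ ^ 2 :=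
        mul_le_mul_of_nonneg_right h4 (by positivity)
    _ = _ := by ring

lemma good_anti' {n m m' : ℕ} {c c' : ℝ} {k : ℕ} {y : Fin k → Alt n} (hm : m ≤ m') (h : c ≤ c')
    (hg : Good1 n m' c' y) : Good1 n m c y :=
  fun j h1 h2 v hv => (mul_le_mul_of_nonneg_right h (by positivity)).trans
    (hg j h1 (h2.trans hm) v hv)

/-- all numbers of permutations -/
theorem levelsAll : ∃ C : ℝ, 1 ≤ C ∧ ∀ δ : ℝ, 0 < δ → δ ≤ 1 / 2 → ∀ᶠ n : ℕ in atTop,
    ∀ k : ℕ, C * Real.log (1 / δ) ^ 2 ≤ k → ∃ r : ℕ, (n : ℝ) ^ (1 - δ) ≤ r ∧ 2 * r + 2 ≤ n ∧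
      (Nat.card {x : Fin k → Alt n // ¬ Good1 n r (k * δ ^ C) x} : ℝ) ≤
        C * Real.log (1 / δ) / n * (Fintype.card (Alt n) : ℝ) ^ k := by
  obtain ⟨C0, hC0, hlev⟩ := levels
  refine ⟨C0 + 2 + 4 * C0, by linarith, ?_⟩
  intro δ hδ hδ2
  set y : ℝ := Real.log (1 / δ) with hy
  have hyδ : Real.log δ = -y := by rw [hy, one_div, Real.log_inv, neg_neg]
  have hy1 : 1 / 2 ≤ y := by
    have h1 : Real.log 2 ≤ y := by
      rw [hy]
      apply Real.log_le_log (by norm_num)
      rw [le_div_iff₀ hδ]; linarith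
    linarith [Real.log_two_gt_d9]
  filter_upwards [hlev δ hδ hδ2, eventually_ge_atTop 1] with n hn hn1
  intro k hk
  obtain ⟨a, r, c, ha, haC, hr, h2r, hc, hc1, hcC, hbad⟩ := hn
  have hnR : (1 : ℝ) ≤ n := by exact_mod_cast hn1
  refine ⟨r, hr, h2r, ?_⟩
  have hak : a ≤ k := by
    have : (a : ℝ) ≤ k := by
      refine haC.trans (le_trans ?_ hk)
      apply mul_le_mul_of_nonneg_right _ (by positivity)
      linarith
    exact_mod_cast this
  have ha0 : (0 : ℝ) < a := by exact_mod_cast ha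
  have h1 := blocksQ a k ha hak (fun y => Good1 n r c y)
    (fun x => Good1 n r (k * δ ^ (C0 + 2 + 4 * C0)) x) (C0 * y / n)
    (fun B hB hB1 hkB x S hS hBS => by
      refine good_anti' le_rfl ?_ (good_blocks ha hB hkB hc x S hS hBS)
      apply mul_le_mul_of_nonneg_left _ (Nat.cast_nonneg _)
      rw [le_div_iff₀ (by positivity)]
      -- δ ^ (C0 + 2 + 4 C0) * (4 a) ≤ δ ^ C0
      have e1 : δ ^ (C0 + 2 + 4 * C0) = δ ^ C0 * (δ ^ (2 : ℝ) * δ ^ (4 * C0)) := by
        rw [← Real.rpow_add hδ, ← Real.rpow_add hδ]; congr 1; ring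
      have e2 : δ * y ≤ 1 := by
        have h3 : y ≤ 1 / δ := by
          have := Real.log_le_sub_one_of_pos (show 0 < 1 / δ by positivity)
          rw [← hy] at this
          linarith
        calc δ * y ≤ δ * (1 / δ) := mul_le_mul_of_nonneg_left h3 hδ.le
          _ = 1 := by field_simp
      have e3 : (δ * y) ^ 2 ≤ 1 := pow_le_one₀ (mul_nonneg hδ.le (by linarith)) e2
      have e4 : δ ^ (4 * C0) * (4 * C0) ≤ 1 := by
        have h3 : δ ^ (4 * C0) ≤ (1 / 2 : ℝ) ^ (4 * C0) :=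
          Real.rpow_le_rpow hδ.le hδ2 (by linarith)
        have h4 : (4 * C0 : ℝ) ≤ 2 ^ (4 * C0) := by
          have hl2 := Real.log_two_gt_d9
          have h5 : Real.log 2 * (2 * C0) + 1 ≤ Real.exp (Real.log 2 * (2 * C0)) :=
            Real.add_one_le_exp _
          have h7 : 1.38 * C0 + 1 ≤ Real.exp (Real.log 2 * (2 * C0)) := by
            refine le_trans ?_ h5
            nlinarith
          have h6 : Real.exp (Real.log 2 * (4 * C0)) = Real.exp (Real.log 2 * (2 * C0)) ^ 2 := by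
            rw [← Real.exp_nat_mul]; congr 1; push_cast; ring
          rw [Real.rpow_def_of_pos (by norm_num), h6]
          have h8 : (1.38 * C0 + 1) ^ 2 ≤ Real.exp (Real.log 2 * (2 * C0)) ^ 2 :=
            pow_le_pow_left₀ (by linarith) h7 2
          refine le_trans ?_ h8
          nlinarith [sq_nonneg (1.38 * C0 - 1)]
        calc δ ^ (4 * C0) * (4 * C0) ≤ (1 / 2 : ℝ) ^ (4 * C0) * 2 ^ (4 * C0) := by
              apply mul_le_mul h3 h4 (by linarith) (by positivity)
          _ = 1 := by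
              rw [← Real.mul_rpow (by norm_num) (by norm_num)]
              norm_num
      calc δ ^ (C0 + 2 + 4 * C0) * (4 * a) ≤ δ ^ (C0 + 2 + 4 * C0) * (4 * (C0 * y ^ 2)) := by
            apply mul_le_mul_of_nonneg_left _ (by positivity)
            linarith
        _ = δ ^ C0 * ((δ * y) ^ 2 * (δ ^ (4 * C0) * (4 * C0))) := by
            rw [e1, Real.rpow_two]; ring
        _ ≤ δ ^ C0 * (1 * 1) := by
            apply mul_le_mul_of_nonneg_left _ (by positivity)
            exact mul_le_mul e3 e4 (by positivity) (by norm_num)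
        _ ≤ c := by rw [mul_one, mul_one]; exact hcC) hbad
  have h2 : 2 * (C0 * y / n) ≤ (C0 + 2 + 4 * C0) * y / n := by
    rw [mul_div_assoc']
    apply div_le_div_of_nonneg_right _ (by linarith)
    nlinarith
  exact h1.trans (mul_le_mul_of_nonneg_right h2 (by positivity))

end TH27.AE
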