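import Pool.Agent.H14R2.RC.Defs

/-!
Small representations of alternating groups have a nonzero vector which is fixed by the pointwise
stabiliser of few points (MP_75608d_al).
-/

set_option autoImplicit false

namespace TH27.AE
open RC14 Equiv Finset
open scoped InnerProductSpace

noncomputable section

variable {n : ℕ}

lemma ai {α : Type*} (g : Perm α) (x : α) : g (g⁻¹ x) = x := g.apply_symm_apply x

lemma ia {α : Type*} (g : Perm α) (x : α) : g⁻¹ (g x) = x := g.symm_apply_apply x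

/-- permutations of the positions of a quadruple as permutations of the points -/
def vi (q : Tup 4 n) : Perm (Fin 4) →* Perm (Fin n) := Perm.viaEmbeddingHom q

lemma vi_apply (q : Tup 4 n) (σ : Perm (Fin 4)) (i : Fin 4) : vi q σ (q i) = q (σ i) :=
  Perm.viaEmbedding_apply σ q i

lemma vi_off (q : Tup 4 n) (σ : Perm (Fin 4)) (p : Fin n) (h : ∀ i, q i ≠ p) : vi q σ p = p :=
  Perm.viaEmbedding_apply_of_notMem σ q p (by rintro ⟨i, hi⟩; exact h i hi)

/-- two permutations with the same values on the quadruple and outside -/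
lemma ext_q (q : Tup 4 n) (f g : Perm (Fin n)) (h1 : ∀ i, f (q i) = g (q i))
    (h2 : ∀ p, (∀ i, q i ≠ p) → f p = g p) : f = g := by
  apply Equiv.ext
  intro p
  by_cases h : ∃ i, q i = p
  · obtain ⟨i, rfl⟩ := h
    exact h1 i
  · push Not at h
    exact h2 p h

lemma vi_swap (q : Tup 4 n) (i j : Fin 4) : vi q (swap i j) = swap (q i) (q j) := by
  refine ext_q q _ _ (fun l => ?_) (fun p hp => ?_)
  · rw [vi_apply]
    by_cases h1 : l = i
    · subst h1; simp
    by_cases h2 : l = j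
    · subst h2; simp
    rw [swap_apply_of_ne_of_ne h1 h2, swap_apply_of_ne_of_ne (fun h => h1 (q.injective h))
      (fun h => h2 (q.injective h))]
  · rw [vi_off q _ p hp, swap_apply_of_ne_of_ne (fun h => hp i h.symm) (fun h => hp j h.symm)]

lemma sign_vi (q : Tup 4 n) (σ : Perm (Fin 4)) : Perm.sign (vi q σ) = Perm.sign σ := by
  induction σ using Perm.swap_induction_on with
  | one => simp
  | swap_mul f x y hxy ih =>
    rw [map_mul, Perm.sign_mul, Perm.sign_mul, ih, vi_swap, Perm.sign_swap hxy,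
      Perm.sign_swap (fun h => hxy (q.injective h))]

lemma vi_conj (g : Perm (Fin n)) (q : Tup 4 n) (σ : Perm (Fin 4)) :
    vi (mv g q) σ = g * vi q σ * g⁻¹ := by
  refine ext_q (mv g q) _ _ (fun l => ?_) (fun p hp => ?_)
  · rw [vi_apply]
    simp [vi_apply]
  · rw [vi_off _ _ p hp]
    have : vi q σ (g⁻¹ p) = g⁻¹ p := by
      apply vi_off
      intro i hi
      exact hp i (by rw [mv_apply, hi, ai])
    rw [Perm.mul_apply, Perm.mul_apply, this, ai]

/-- relabelling of a quadruple -/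
def rl (s : Perm (Fin 4)) (q : Tup 4 n) : Tup 4 n := s.toEmbedding.trans q

@[simp] lemma rl_apply (s : Perm (Fin 4)) (q : Tup 4 n) (i : Fin 4) : rl s q i = q (s i) := rfl

lemma vi_rl (s : Perm (Fin 4)) (q : Tup 4 n) (σ : Perm (Fin 4)) :
    vi (rl s q) σ = vi q (s * σ * s⁻¹) := by
  refine ext_q (rl s q) _ _ (fun l => ?_) (fun p hp => ?_)
  · rw [vi_apply, rl_apply, rl_apply, vi_apply, Perm.mul_apply, Perm.mul_apply,
      ia]
  · rw [vi_off _ _ p hp, vi_off]
    intro i hi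
    exact hp (s⁻¹ i) (by rw [rl_apply, ai, hi])

/-- the group `A_4` -/
abbrev A4 := alternatingGroup (Fin 4)

/-- the even permutations of a quadruple -/
def ps (q : Tup 4 n) : A4 →* Alt n where
  toFun σ := ⟨vi q σ, by rw [Perm.mem_alternatingGroup, sign_vi]; exact σ.2⟩
  map_one' := by ext; simp
  map_mul' σ τ := by ext; simp

lemma ps_coe (q : Tup 4 n) (σ : A4) : ((ps q σ : Alt n) : Perm (Fin n)) = vi q σ := rfl

def eA : A4 := ⟨swap 0 1 * swap 2 3, Perm.mem_alternatingGroup.mpr (by decide)⟩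
def eB : A4 := ⟨swap 0 2 * swap 1 3, Perm.mem_alternatingGroup.mpr (by decide)⟩
def eC : A4 := ⟨swap 0 3 * swap 1 2, Perm.mem_alternatingGroup.mpr (by decide)⟩
def eR : A4 := ⟨swap 1 2 * swap 2 3, Perm.mem_alternatingGroup.mpr (by decide)⟩

lemma eAB : eA * eB = eC := by decide
lemma eBA : eB * eA = eC := by decide
lemma eAC : eA * eC = eB := by decide
lemma eCA : eC * eA = eB := by decide
lemma eBC : eB * eC = eA := by decide
lemma eCB : eC * eB = eA := by decide
lemma eAA : eA * eA = 1 := by decide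
lemma eBB : eB * eB = 1 := by decide
lemma eCC : eC * eC = 1 := by decide
lemma eAR : eA * eR = eR * eC := by decide
lemma eBR : eB * eR = eR * eA := by decide
lemma eCR : eC * eR = eR * eB := by decide

lemma ps_rl (s : A4) (q : Tup 4 n) (σ : A4) : ps (rl s q) σ = ps q (s * σ * s⁻¹) := by
  apply Subtype.ext
  rw [ps_coe, ps_coe, vi_rl]
  rfl

lemma eR1 : eR * eA * eR⁻¹ = eB := by decide
lemma eR2 : eR * eB * eR⁻¹ = eC := by decide
lemma eR3 : eR * eC * eR⁻¹ = eA := by decide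

/-- disjoint quadruples -/
def Dj (q q' : Tup 4 n) : Prop := ∀ i j, q i ≠ q' j

lemma Dj.symm {q q' : Tup 4 n} (h : Dj q q') : Dj q' q := fun i j e => h j i e.symm

lemma Dj.rl {q q' : Tup 4 n} (h : Dj q q') (s : Perm (Fin 4)) : Dj (AE.rl s q) q' :=
  fun i j => h (s i) j

lemma ps_comm {q q' : Tup 4 n} (h : Dj q q') (σ τ : A4) : ps q σ * ps q' τ = ps q' τ * ps q σ := by
  apply Subtype.ext
  rw [Subgroup.coe_mul, Subgroup.coe_mul, ps_coe, ps_coe]
  apply Equiv.ext
  intro p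
  simp only [Perm.coe_mul, Function.comp_apply]
  by_cases h1 : ∃ i, q i = p
  · obtain ⟨i, rfl⟩ := h1
    rw [vi_apply, vi_off q' _ _ (fun j => (h.symm j i)), vi_off q' _ _ (fun j => (h.symm j _)),
      vi_apply]
  · push Not at h1
    rw [vi_off q _ p h1]
    by_cases h2 : ∃ i, q' i = p
    · obtain ⟨i, rfl⟩ := h2
      rw [vi_apply, vi_off q _ _ (fun j => h j _)]
    · push Not at h2
      rw [vi_off q' _ p h2, vi_off q _ p h1]

section
variable {V : Type*} [NormedAddCommGroup V] [InnerProductSpace ℂ V]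
variable (ρ : Alt n →* (V ≃ₗᵢ[ℂ] V))

lemma rho_mul (g h : Alt n) (v : V) : ρ (g * h) v = ρ g (ρ h v) := by
  rw [map_mul]; rfl

/-- vectors on which all quadruples of the list act by the character `(1, -1)` -/
def UU (l : List (Tup 4 n)) : Submodule ℂ V where
  carrier := {v | ∀ q ∈ l, ρ (ps q eA) v = v ∧ ρ (ps q eB) v = -v}
  zero_mem' := by intro q _; simp
  add_mem' := by
    intro a b ha hb q hq
    obtain ⟨h1, h2⟩ := ha q hq
    obtain ⟨h3, h4⟩ := hb q hq
    rw [map_add, map_add, h1, h2, h3, h4]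
    exact ⟨rfl, by abel⟩
  smul_mem' := by
    intro c a ha q hq
    obtain ⟨h1, h2⟩ := ha q hq
    rw [map_smul, map_smul, h1, h2]
    exact ⟨rfl, by rw [smul_neg]⟩

lemma mem_UU {l : List (Tup 4 n)} {v : V} :
    v ∈ UU ρ l ↔ ∀ q ∈ l, ρ (ps q eA) v = v ∧ ρ (ps q eB) v = -v := Iff.rfl

lemma UU_nil : UU ρ ([] : List (Tup 4 n)) = ⊤ := by
  rw [eq_top_iff]
  intro v _ q hq
  simp at hq

lemma UU_cons_le (q : Tup 4 n) (l : List (Tup 4 n)) : UU ρ (q :: l) ≤ UU ρ l :=
  fun _ hv q' hq' => hv q' (List.mem_cons_of_mem _ hq')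

/-- elements on a disjoint quadruple preserve `UU` -/
lemma UU_inv {l : List (Tup 4 n)} {q : Tup 4 n} (hq : ∀ q' ∈ l, Dj q q') (σ : A4) {v : V}
    (hv : v ∈ UU ρ l) : ρ (ps q σ) v ∈ UU ρ l := by
  intro q' hq'
  obtain ⟨h1, h2⟩ := hv q' hq'
  constructor
  · rw [← rho_mul, ← ps_comm (hq q' hq'), rho_mul, h1]
  · rw [← rho_mul, ← ps_comm (hq q' hq'), rho_mul, h2, map_neg]

lemma orth_of_sign (g : Alt n) {x y : V} (h1 : ρ g x = x) (h2 : ρ g y = -y) : ⟪x, y⟫_ℂ = 0 := by
  have h := (ρ g).inner_map_map x y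
  rw [h1, h2, inner_neg_right] at h
  have : (2 : ℂ) * ⟪x, y⟫_ℂ = 0 := by linear_combination -h
  simpa using this

lemma orth_of_sign' (g : Alt n) {x y : V} (h1 : ρ g x = -x) (h2 : ρ g y = y) : ⟪x, y⟫_ℂ = 0 := by
  have h := (ρ g).inner_map_map x y
  rw [h1, h2, inner_neg_left] at h
  have : (2 : ℂ) * ⟪x, y⟫_ℂ = 0 := by linear_combination -h
  simpa using this

/-- one more quadruple divides the dimension by three -/
lemma step_dim [FiniteDimensional ℂ V] (q : Tup 4 n) (l : List (Tup 4 n))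
    (hq : ∀ q' ∈ l, Dj q q') :
    3 * Module.finrank ℂ (UU ρ (q :: l)) ≤ Module.finrank ℂ (UU ρ l) := by
  set R : Alt n := ps q eR with hR
  have hmem : ∀ (σ : A4) (x : UU ρ (q :: l)), ρ (ps q σ) (x : V) ∈ UU ρ l :=
    fun σ x => UU_inv ρ hq σ (UU_cons_le ρ q l x.2)
  -- the three eigenvalue pairs
  have e0 : ∀ x : UU ρ (q :: l), ρ (ps q eA) (x : V) = x ∧ ρ (ps q eB) (x : V) = -x :=
    fun x => x.2 q (List.mem_cons_self)
  have e0C : ∀ x : UU ρ (q :: l), ρ (ps q eC) (x : V) = -x := by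
    intro x
    rw [← eAB, map_mul, rho_mul, (e0 x).2, map_neg, (e0 x).1]
  have e1A : ∀ x : UU ρ (q :: l), ρ (ps q eA) (ρ (ps q eR) (x : V)) = -ρ (ps q eR) (x : V) := by
    intro x
    rw [← rho_mul, ← map_mul, eAR, map_mul, rho_mul, e0C, map_neg]
  have e1B : ∀ x : UU ρ (q :: l), ρ (ps q eB) (ρ (ps q eR) (x : V)) = ρ (ps q eR) (x : V) := by
    intro x
    rw [← rho_mul, ← map_mul, eBR, map_mul, rho_mul, (e0 x).1]
  have e1C : ∀ x : UU ρ (q :: l), ρ (ps q eC) (ρ (ps q eR) (x : V)) = -ρ (ps q eR) (x : V) := by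
    intro x
    rw [← rho_mul, ← map_mul, eCR, map_mul, rho_mul, (e0 x).2, map_neg]
  have e2A : ∀ x : UU ρ (q :: l), ρ (ps q eA) (ρ (ps q eR) (ρ (ps q eR) (x : V))) =
      -ρ (ps q eR) (ρ (ps q eR) (x : V)) := by
    intro x
    rw [← rho_mul, ← map_mul, eAR, map_mul, rho_mul, e1C, map_neg]
  have e2B : ∀ x : UU ρ (q :: l), ρ (ps q eB) (ρ (ps q eR) (ρ (ps q eR) (x : V))) =
      -ρ (ps q eR) (ρ (ps q eR) (x : V)) := by
    intro x
    rw [← rho_mul, ← map_mul, eBR, map_mul, rho_mul, e1A, map_neg]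
  let L : (UU ρ (q :: l) × UU ρ (q :: l) × UU ρ (q :: l)) →ₗ[ℂ] UU ρ l :=
    { toFun := fun t => ⟨(t.1 : V) + ρ (ps q eR) (t.2.1 : V) +
          ρ (ps q eR) (ρ (ps q eR) (t.2.2 : V)),
        add_mem (add_mem (UU_cons_le ρ q l t.1.2) (hmem _ _)) (by
          have := hmem (eR * eR) t.2.2
          rwa [map_mul, rho_mul] at this)⟩
      map_add' := by
        intro s t
        apply Subtype.ext
        simp only [Prod.fst_add, Prod.snd_add, Submodule.coe_add, map_add]
        abel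
      map_smul' := by
        intro c t
        apply Subtype.ext
        simp only [Prod.smul_fst, Prod.smul_snd, Submodule.coe_smul, map_smul, RingHom.id_apply,
          smul_add] }
  have hL : Function.Injective L := by
    rw [← LinearMap.ker_eq_bot, LinearMap.ker_eq_bot']
    rintro ⟨x, y, z⟩ h
    have h0 : (x : V) + ρ (ps q eR) (y : V) + ρ (ps q eR) (ρ (ps q eR) (z : V)) = 0 :=
      congrArg Subtype.val h
    have oxy : ⟪(x : V), ρ (ps q eR) (y : V)⟫_ℂ = 0 := orth_of_sign ρ _ (e0 x).1 (e1A y)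
    have oxz : ⟪(x : V), ρ (ps q eR) (ρ (ps q eR) (z : V))⟫_ℂ = 0 :=
      orth_of_sign ρ _ (e0 x).1 (e2A z)
    have oyx : ⟪ρ (ps q eR) (y : V), (x : V)⟫_ℂ = 0 := orth_of_sign' ρ _ (e1A y) (e0 x).1
    have oyz : ⟪ρ (ps q eR) (y : V), ρ (ps q eR) (ρ (ps q eR) (z : V))⟫_ℂ = 0 :=
      orth_of_sign ρ _ (e1B y) (e2B z)
    have hx : (x : V) = 0 := by
      have h1 := congrArg (fun w : V => ⟪(x : V), w⟫_ℂ) h0
      simp only [inner_add_right, oxy, oxz, inner_zero_right, add_zero] at h1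
      exact inner_self_eq_zero.mp h1
    have hy : (y : V) = 0 := by
      have h1 := congrArg (fun w : V => ⟪ρ (ps q eR) (y : V), w⟫_ℂ) h0
      simp only [inner_add_right, oyx, oyz, inner_zero_right, add_zero, zero_add] at h1
      have h2 := inner_self_eq_zero.mp h1
      exact (map_eq_zero_iff _ (ρ (ps q eR)).injective).mp h2
    have hz : (z : V) = 0 := by
      rw [hx, hy, map_zero, zero_add, zero_add] at h0
      exact (map_eq_zero_iff _ (ρ (ps q eR)).injective).mp
        ((map_eq_zero_iff _ (ρ (ps q eR)).injective).mp h0)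
    rw [Prod.mk_eq_zero, Prod.mk_eq_zero]
    exact ⟨Subtype.ext hx, Subtype.ext hy, Subtype.ext hz⟩
  have := LinearMap.finrank_le_finrank_of_injective hL
  rw [Module.finrank_prod, Module.finrank_prod] at this
  omega

/-- the dimension is at least `3 ^ w` if there are `w` quadruples -/
lemma pow_dim [FiniteDimensional ℂ V] (l : List (Tup 4 n)) (hl : l.Pairwise Dj) :
    3 ^ l.length * Module.finrank ℂ (UU ρ l) ≤ Module.finrank ℂ V := by
  induction l with
  | nil =>
    rw [List.length_nil, pow_zero, one_mul]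
    exact Submodule.finrank_le _
  | cons q l ih =>
    rw [List.pairwise_cons] at hl
    have h1 := ih hl.2
    have h2 := step_dim ρ q l hl.1
    calc 3 ^ (q :: l).length * Module.finrank ℂ (UU ρ (q :: l))
        = 3 ^ l.length * (3 * Module.finrank ℂ (UU ρ (q :: l))) := by
          rw [List.length_cons, pow_succ]; ring
      _ ≤ 3 ^ l.length * Module.finrank ℂ (UU ρ l) := Nat.mul_le_mul_left _ h2
      _ ≤ _ := h1

/-- at a maximal list all further quadruples act trivially -/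
lemma triv_of_max {l : List (Tup 4 n)} {q : Tup 4 n} (hq : ∀ q' ∈ l, Dj q q')
    (hmax : ∀ s : A4, UU ρ (rl s q :: l) = ⊥) {v : V} (hv : v ∈ UU ρ l) :
    ρ (ps q eA) v = v := by
  set a := ρ (ps q eA) v with ha
  set b := ρ (ps q eB) v with hb
  set c := ρ (ps q eC) v with hc
  have hAa : ρ (ps q eA) a = v := by rw [ha, ← rho_mul, ← map_mul, eAA]; simp
  have hAb : ρ (ps q eA) b = c := by rw [hb, hc, ← rho_mul, ← map_mul, eAB]
  have hAc : ρ (ps q eA) c = b := by rw [hb, hc, ← rho_mul, ← map_mul, eAC]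
  have hBa : ρ (ps q eB) a = c := by rw [ha, hc, ← rho_mul, ← map_mul, eBA]
  have hBb : ρ (ps q eB) b = v := by rw [hb, ← rho_mul, ← map_mul, eBB]; simp
  have hBc : ρ (ps q eB) c = a := by rw [hc, ha, ← rho_mul, ← map_mul, eBC]
  have hCa : ρ (ps q eC) a = b := by rw [ha, hb, ← rho_mul, ← map_mul, eCA]
  have hCb : ρ (ps q eC) b = a := by rw [hb, ha, ← rho_mul, ← map_mul, eCB]
  have hCc : ρ (ps q eC) c = v := by rw [hc, ← rho_mul, ← map_mul, eCC]; simp
  have hva : a ∈ UU ρ l := UU_inv ρ hq eA hv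
  have hvb : b ∈ UU ρ l := UU_inv ρ hq eB hv
  have hvc : c ∈ UU ρ l := UU_inv ρ hq eC hv
  -- the three components vanish
  have key : ∀ (s : A4) (w : V), w ∈ UU ρ l → ρ (ps q (s * eA * s⁻¹)) w = w →
      ρ (ps q (s * eB * s⁻¹)) w = -w → w = 0 := by
    intro s w hw h1 h2
    have h3 : w ∈ UU ρ (rl s q :: l) := by
      intro q' hq'
      rcases List.mem_cons.mp hq' with h | h
      · rw [h, ps_rl, ps_rl]; exact ⟨h1, h2⟩
      · exact hw q' h
    rw [hmax s] at h3
    simpa using h3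
  have k1 : v + a - b - c = 0 := by
    refine key 1 _ (sub_mem (sub_mem (add_mem hv hva) hvb) hvc) ?_ ?_
    · simp only [one_mul, inv_one, mul_one, map_add, map_sub, hAa, hAb, hAc, ← ha]; abel
    · simp only [one_mul, inv_one, mul_one, map_add, map_sub, hBa, hBb, hBc, ← hb]; abel
  have k2 : v + b - c - a = 0 := by
    refine key eR _ (sub_mem (sub_mem (add_mem hv hvb) hvc) hva) ?_ ?_
    · simp only [eR1, map_add, map_sub, hBa, hBb, hBc, ← hb]; abel
    · simp only [eR2, map_add, map_sub, hCa, hCb, hCc, ← hc]; abel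
  have k3 : v + c - a - b = 0 := by
    refine key (eR * eR) _ (sub_mem (sub_mem (add_mem hv hvc) hva) hvb) ?_ ?_
    · have e : eR * eR * eA * (eR * eR)⁻¹ = eC := by decide
      simp only [e, map_add, map_sub, hCa, hCb, hCc, ← hc]; abel
    · have e : eR * eR * eB * (eR * eR)⁻¹ = eA := by decide
      simp only [e, map_add, map_sub, hAa, hAb, hAc, ← ha]; abel
  have h4 : (2 : ℂ) • v - (2 : ℂ) • a = 0 := by
    have : (v + b - c - a) + (v + c - a - b) = (2 : ℂ) • v - (2 : ℂ) • a := by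
      rw [two_smul, two_smul]; abel
    rw [← this, k2, k3, add_zero]
  have h5 : v - a = 0 := by
    rw [← smul_sub] at h4
    exact (smul_eq_zero.mp h4).resolve_left two_ne_zero
  exact (sub_eq_zero.mp h5).symm

/-- `g` fixes `v` for every even permutation given by `h` -/
def Fx (v : V) (h : Perm (Fin n)) : Prop := ∀ g : Alt n, (g : Perm (Fin n)) = h → ρ g v = v

lemma Fx.mul {v : V} {h h' : Perm (Fin n)} (h1 : Fx ρ v h) (h2 : Fx ρ v h')
    (e1 : Perm.sign h = 1) (e2 : Perm.sign h' = 1) : Fx ρ v (h * h') := by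
  intro g hg
  have : g = (⟨h, e1⟩ : Alt n) * (⟨h', e2⟩ : Alt n) := Subtype.ext hg
  rw [this, rho_mul, h2 _ rfl, h1 _ rfl]

/-- the points of the quadruples of a list -/
def sp (l : List (Tup 4 n)) : Finset (Fin n) := l.toFinset.biUnion fun q => univ.map q

lemma mem_sp {l : List (Tup 4 n)} {p : Fin n} : p ∈ sp l ↔ ∃ q ∈ l, ∃ i, q i = p := by
  simp [sp]

lemma card_sp (l : List (Tup 4 n)) : (sp l).card ≤ 4 * l.length := by
  unfold sp
  refine (card_biUnion_le_card_mul _ _ 4 (fun q _ => by simp)).trans ?_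
  rw [mul_comm]
  exact Nat.mul_le_mul_left _ (List.toFinset_card_le l)

/-- four distinct points -/
def quad (x y z t : Fin n) (h1 : x ≠ y) (h2 : x ≠ z) (h3 : x ≠ t) (h4 : y ≠ z) (h5 : y ≠ t)
    (h6 : z ≠ t) : Tup 4 n :=
  ⟨![x, y, z, t], by
    intro i j h
    fin_cases i <;> fin_cases j <;> simp_all⟩

/-- products of two disjoint transpositions of points outside -/
lemma fx_disj {l : List (Tup 4 n)}
    (hmax : ∀ q : Tup 4 n, (∀ q' ∈ l, Dj q q') → ∀ s : A4, UU ρ (rl s q :: l) = ⊥) {v : V}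
    (hv : v ∈ UU ρ l) {x y z t : Fin n} (hx : x ∉ sp l) (hy : y ∉ sp l) (hz : z ∉ sp l)
    (ht : t ∉ sp l) (h1 : x ≠ y) (h2 : x ≠ z) (h3 : x ≠ t) (h4 : y ≠ z) (h5 : y ≠ t)
    (h6 : z ≠ t) : Fx ρ v (swap x y * swap z t) := by
  intro g hg
  set q := quad x y z t h1 h2 h3 h4 h5 h6 with hq
  have q0 : q 0 = x := rfl
  have q1 : q 1 = y := rfl
  have q2 : q 2 = z := rfl
  have q3 : q 3 = t := rfl
  have hd : ∀ q' ∈ l, Dj q q' := by
    intro q' hq' i j e
    have h7 : q i ∈ sp l := mem_sp.mpr ⟨q', hq', j, e.symm⟩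
    fin_cases i
    · exact hx h7
    · exact hy h7
    · exact hz h7
    · exact ht h7
  have h8 := triv_of_max ρ hd (hmax q hd) hv
  have h9 : g = ps q eA := by
    apply Subtype.ext
    rw [hg, ps_coe]
    change _ = vi q (swap 0 1 * swap 2 3)
    rw [map_mul, vi_swap, vi_swap, q0, q1, q2, q3]
  rw [h9, h8]

/-- products of two transpositions of points outside -/
lemma fx_pair {l : List (Tup 4 n)} (hn : 4 * l.length + 6 ≤ n)
    (hmax : ∀ q : Tup 4 n, (∀ q' ∈ l, Dj q q') → ∀ s : A4, UU ρ (rl s q :: l) = ⊥) {v : V}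
    (hv : v ∈ UU ρ l) {x y z t : Fin n} (hx : x ∉ sp l) (hy : y ∉ sp l) (hz : z ∉ sp l)
    (ht : t ∉ sp l) (h1 : x ≠ y) (h6 : z ≠ t) : Fx ρ v (swap x y * swap z t) := by
  set T : Finset (Fin n) := sp l ∪ {x, y, z, t} with hT
  have hTc : T.card ≤ 4 * l.length + 4 :=
    (card_union_le _ _).trans (add_le_add (card_sp l) card_le_four)
  have hc : 1 < (Tᶜ).card := by
    rw [card_compl, Fintype.card_fin]; omega
  obtain ⟨u, hu, u', hu', huu⟩ := Finset.one_lt_card.mp hc
  simp only [hT, mem_compl, mem_union, mem_insert, mem_singleton, not_or] at hu hu'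
  obtain ⟨a0, a1, a2, a3, a4⟩ := hu
  obtain ⟨b0, b1, b2, b3, b4⟩ := hu'
  have e : swap x y * swap z t = (swap x y * swap u u') * (swap u u' * swap z t) := by
    rw [mul_assoc, ← mul_assoc (swap u u') (swap u u'), swap_mul_self, one_mul]
  rw [e]
  refine Fx.mul ρ (fx_disj ρ hmax hv hx hy a0 b0 h1 (Ne.symm a1) (Ne.symm b1) (Ne.symm a2)
    (Ne.symm b2) huu) (fx_disj ρ hmax hv a0 b0 hz ht huu a3 a4 b3 b4 h6) ?_ ?_
  · rw [Perm.sign_mul, Perm.sign_swap h1, Perm.sign_swap huu]; rfl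
  · rw [Perm.sign_mul, Perm.sign_swap h6, Perm.sign_swap huu]; rfl

/-- the pointwise stabiliser of the points of the list fixes the vector -/
lemma fx_all {l : List (Tup 4 n)} (hn : 4 * l.length + 6 ≤ n)
    (hmax : ∀ q : Tup 4 n, (∀ q' ∈ l, Dj q q') → ∀ s : A4, UU ρ (rl s q :: l) = ⊥) {v : V}
    (hv : v ∈ UU ρ l) (g : Alt n) (hg : ∀ p ∈ sp l, (g : Perm (Fin n)) p = p) : ρ g v = v := by
  classical
  have main : ∀ f : Perm {p // p ∉ sp l},
      (Perm.sign f = 1 → Fx ρ v (Perm.ofSubtype f)) ∧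
      (Perm.sign f = -1 → ∀ x y : Fin n, x ∉ sp l → y ∉ sp l → x ≠ y →
        Fx ρ v (swap x y * Perm.ofSubtype f)) := by
    intro f
    induction f using Perm.swap_induction_on with
    | one =>
      refine ⟨fun _ g hg => ?_, fun h => ?_⟩
      · have : g = 1 := by
          apply Subtype.ext
          rw [hg, map_one]; rfl
        rw [this, map_one]; rfl
      · rw [Perm.sign_one] at h
        exact absurd h (by decide)
    | swap_mul f x y hxy ih =>
      obtain ⟨ih1, ih2⟩ := ih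
      have e : Perm.ofSubtype (swap x y * f) = swap (x : Fin n) y * Perm.ofSubtype f := by
        rw [map_mul, Perm.ofSubtype_swap_eq]
      have hxy' : (x : Fin n) ≠ y := fun h => hxy (Subtype.ext h)
      refine ⟨fun h => ?_, fun h => ?_⟩
      · rw [e]
        refine ih2 ?_ _ _ x.2 y.2 hxy'
        rw [Perm.sign_mul, Perm.sign_swap hxy, neg_one_mul, neg_eq_iff_eq_neg] at h
        exact h
      · intro x' y' hx' hy' h'
        rw [Perm.sign_mul, Perm.sign_swap hxy, neg_one_mul, neg_inj] at h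
        rw [e, ← mul_assoc]
        refine Fx.mul ρ (fx_pair ρ hn hmax hv hx' hy' x.2 y.2 h' hxy') (ih1 h) ?_ ?_
        · rw [Perm.sign_mul, Perm.sign_swap h', Perm.sign_swap hxy']; rfl
        · rw [Perm.sign_ofSubtype]; exact h
  have h1 : ∀ x, (g : Perm (Fin n)) x ∉ sp l ↔ x ∉ sp l := by
    intro x
    constructor
    · intro h hx
      exact h (by rw [hg x hx]; exact hx)
    · intro h hx
      apply h
      have := hg _ hx
      have h2 := (g : Perm (Fin n)).injective this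
      rwa [h2] at hx
  have h2 : ∀ x, (g : Perm (Fin n)) x ≠ x → x ∉ sp l := fun x hx hxl => hx (hg x hxl)
  have h3 := Perm.ofSubtype_subtypePerm (f := (g : Perm (Fin n))) h1 h2
  refine (main (Perm.subtypePerm (g : Perm (Fin n)) h1)).1 ?_ g h3.symm
  rw [← Perm.sign_ofSubtype, h3]
  exact g.2

/-- **A small representation has a vector fixed by the pointwise stabiliser of few points.** -/
theorem fixedVec [FiniteDimensional ℂ V] [Nontrivial V] : ∃ w : ℕ,
    3 ^ w ≤ Module.finrank ℂ V ∧ (4 * w + 6 ≤ n → ∃ S : Finset (Fin n), S.card ≤ 4 * w ∧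
      ∃ v : V, v ≠ 0 ∧ ∀ g : Alt n, (∀ p ∈ S, (g : Perm (Fin n)) p = p) → ρ g v = v) := by
  let P : ℕ → Prop := fun w => ∃ l : List (Tup 4 n), l.length = w ∧ l.Pairwise Dj ∧ UU ρ l ≠ ⊥
  have hP0 : P 0 := ⟨[], rfl, List.Pairwise.nil, by rw [UU_nil]; exact top_ne_bot⟩
  have hPd : ∀ w, P w → 3 ^ w ≤ Module.finrank ℂ V := by
    rintro w ⟨l, hl, hp, hU⟩
    have h1 := pow_dim ρ l hp
    have h2 : 1 ≤ Module.finrank ℂ (UU ρ l) := by
      rw [Nat.one_le_iff_ne_zero, Ne, Submodule.finrank_eq_zero]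
      exact hU
    rw [hl] at h1
    calc 3 ^ w = 3 ^ w * 1 := (mul_one _).symm
      _ ≤ _ := (Nat.mul_le_mul_left _ h2).trans h1
  obtain ⟨w, hw, hw1⟩ : ∃ w, P w ∧ ¬ P (w + 1) := by
    by_contra hcon
    push Not at hcon
    have h1 : ∀ w, P w := fun w => by
      induction w with
      | zero => exact hP0
      | succ w ih => exact hcon w ih
    have h2 := hPd _ (h1 (Module.finrank ℂ V))
    have h3 : Module.finrank ℂ V < 3 ^ Module.finrank ℂ V := Nat.lt_pow_self (by norm_num)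
    omega
  refine ⟨w, hPd w hw, fun hn => ?_⟩
  obtain ⟨l, hl, hp, hU⟩ := hw
  obtain ⟨v, hv, hv0⟩ := Submodule.exists_mem_ne_zero_of_ne_bot hU
  refine ⟨sp l, by rw [← hl]; exact card_sp l, v, hv0, fun g hg => ?_⟩
  refine fx_all ρ (by rw [hl]; exact hn) (fun q hq s => ?_) hv g hg
  by_contra hcon
  exact hw1 ⟨rl s q :: l, by rw [List.length_cons, hl],
    List.pairwise_cons.mpr ⟨fun q' hq' => (hq q' hq').rl s, hp⟩, hcon⟩

end

end

end TH27.AE
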